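import Pool.Agent.H24.RD.Targets

/-! rem_modules SK2: correction of an element on which the top Kummer group acts through roots of
unity -/

set_option autoImplicit false

namespace Pool.Agent.H59.RD

open Pool.Agent.H24.RD Finset

theorem zpow_add_val {M : Type} [Field M] {p : ℕ} [NeZero p] {ζ : M}
    (hζ : IsPrimitiveRoot ζ p) (x y : ZMod p) : ζ ^ (x + y).val = ζ ^ x.val * ζ ^ y.val := by
  rw [← pow_add, ZMod.val_add]
  conv_rhs => rw [← Nat.mod_add_div (x.val + y.val) p, pow_add, pow_mul, hζ.pow_eq_one, one_pow,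
    mul_one]

/-- powers of a root of unity with exponents in `ℤ/p` -/
noncomputable def ph {M : Type} [Field M] {p : ℕ} [NeZero p] {ζ : M} (hζ : IsPrimitiveRoot ζ p) :
    Multiplicative (ZMod p) →* M where
  toFun y := ζ ^ (Multiplicative.toAdd y).val
  map_one' := by rw [toAdd_one, ZMod.val_zero, pow_zero]
  map_mul' x y := by rw [toAdd_mul, zpow_add_val hζ]

theorem ph_inj {M : Type} [Field M] {p : ℕ} [NeZero p] {ζ : M} (hζ : IsPrimitiveRoot ζ p)
    {x y : Multiplicative (ZMod p)} (h : ph hζ x = ph hζ y) : x = y :=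
  Multiplicative.toAdd.injective
    (ZMod.val_injective p (hζ.pow_inj (ZMod.val_lt _) (ZMod.val_lt _) h))

/-- a character with values in the `p`-th roots of unity, as a homomorphism to `ℤ/p` -/
theorem toZ {A M : Type} [Group A] [Field M] {p : ℕ} [NeZero p] {ζ : M}
    (hζ : IsPrimitiveRoot ζ p) (f : A → M) (h1 : ∀ a b, f (a * b) = f a * f b)
    (h2 : ∀ a, f a ^ p = 1) :
    ∃ s : A →* Multiplicative (ZMod p), ∀ a, f a = ph hζ (s a) := by
  have key : ∀ a, ∃ e : Multiplicative (ZMod p), f a = ph hζ e := by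
    intro a
    obtain ⟨i, hi, he⟩ := hζ.eq_pow_of_pow_eq_one (h2 a)
    refine ⟨Multiplicative.ofAdd (i : ZMod p), ?_⟩
    show f a = ζ ^ (Multiplicative.toAdd (Multiplicative.ofAdd (i : ZMod p))).val
    rw [toAdd_ofAdd, ZMod.val_natCast_of_lt hi, he]
  choose e he using key
  refine ⟨⟨⟨e, ?_⟩, ?_⟩, fun a => he a⟩
  · apply ph_inj hζ
    rw [← he 1, map_one]
    have h3 := h1 1 1
    rw [mul_one] at h3
    have h4 : f 1 ≠ 0 := by
      intro h
      have := h2 1
      rw [h, zero_pow (NeZero.ne p)] at this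
      exact zero_ne_one this
    exact (mul_eq_left₀ h4).1 h3.symm
  · intro a b
    apply ph_inj hζ
    show ph hζ (e (a * b)) = ph hζ (e a * e b)
    rw [map_mul, ← he, h1, he a, he b]

/-- the top group -/
def At (F M : Type) [Field F] [Field M] [Algebra F M] {r : ℕ} (γ : Fin r → F) (p m N K' : ℕ) :
    Subgroup (M ≃ₐ[F] M) where
  carrier := {h | h ∈ AA F M γ N K' ∧
    ∀ (y : M) (i : Fin r), y ^ (p ^ (m - 1)) = algebraMap F M (γ i) → h y = y}
  mul_mem' := by
    rintro s t ⟨hs1, hs2⟩ ⟨ht1, ht2⟩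
    exact ⟨mul_mem hs1 ht1, fun y i hy => by rw [AlgEquiv.mul_apply, ht2 y i hy, hs2 y i hy]⟩
  one_mem' := ⟨one_mem _, fun y _ _ => rfl⟩
  inv_mem' := by
    rintro t ⟨ht1, ht2⟩
    refine ⟨inv_mem ht1, fun y i hy => ?_⟩
    have h := ht2 y i hy
    calc t⁻¹ y = t⁻¹ (t y) := by rw [h]
      _ = y := by
        rw [← AlgEquiv.mul_apply, inv_mul_cancel]
        rfl

section core

variable {F M : Type} [Field F] [Field M] [Algebra F M] {r : ℕ} {γ : Fin r → F}
  {p n m N' K' : ℕ}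

theorem AA_root {h : M ≃ₐ[F] M} {N : ℕ} (hh : h ∈ AA F M γ N K') {z : M} (hz : z ^ N = 1) :
    h z = z := hh z (Or.inl hz)

theorem AA_root' {h : M ≃ₐ[F] M} {N : ℕ} (hh : h ∈ AA F M γ N K') {z : M} {i : Fin r}
    (hz : z ^ K' = algebraMap F M (γ i)) : h z = z := hh z (Or.inr ⟨i, hz⟩)

theorem eq_one_of_coprime {ω : M} {a b : ℕ} (h : Nat.Coprime a b) (ha : ω ^ a = 1)
    (hb : ω ^ b = 1) : ω = 1 := by
  have h1 := orderOf_dvd_of_pow_eq_one ha
  have h2 := orderOf_dvd_of_pow_eq_one hb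
  have h3 := Nat.dvd_gcd h1 h2
  rw [h.gcd_eq_one, Nat.dvd_one, orderOf_eq_one_iff] at h3
  exact h3

theorem pow_gcd_one {ω : M} {a b : ℕ} (ha : ω ^ a = 1) (hb : ω ^ b = 1) : ω ^ (Nat.gcd a b) = 1 :=
  orderOf_dvd_iff_pow_eq_one.1 (Nat.dvd_gcd (orderOf_dvd_of_pow_eq_one ha)
    (orderOf_dvd_of_pow_eq_one hb))

theorem aut_eq_one {S : Set M} (hgen : IntermediateField.adjoin F S = ⊤) (h : M ≃ₐ[F] M)
    (hS : ∀ z ∈ S, h z = z) : h = 1 := by
  have h1 : IntermediateField.adjoin F S ≤ IntermediateField.fixedField (Subgroup.zpowers h) := by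
    rw [IntermediateField.adjoin_le_iff]
    intro z hz
    rw [SetLike.mem_coe, IntermediateField.mem_fixedField_iff]
    intro g hg
    obtain ⟨k, rfl⟩ := Subgroup.mem_zpowers_iff.1 hg
    have h2 : h ∈ MulAction.stabilizer (M ≃ₐ[F] M) z := hS z hz
    exact Subgroup.zpow_mem _ h2 k
  ext z
  have h2 : z ∈ IntermediateField.adjoin F S := by rw [hgen]; exact IntermediateField.mem_top
  exact (IntermediateField.mem_fixedField_iff _ _).1 (h1 h2) h (Subgroup.mem_zpowers h)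

theorem core [FiniteDimensional F M] [IsGalois F M] (hp : p.Prime) (hγ : ∀ i, γ i ≠ 0)
    {R : ℕ} (hm : 1 ≤ m) (hmn : m ≤ n) (hR : R ≤ n) (hN : ¬ p ∣ N') (hK : K' ∣ N')
    (hζ : ∃ ζ : M, IsPrimitiveRoot ζ (p ^ n * N'))
    (hθ : ∀ i, ∃ θ : M, θ ^ (p ^ m * K') = algebraMap F M (γ i))
    (hgen : IntermediateField.adjoin F {z : M | z ^ (p ^ n * N') = 1 ∨
      ∃ i, z ^ (p ^ m * K') = algebraMap F M (γ i)} = ⊤) (hEXT : T_EXT)
    (β : M) (hβ : β ≠ 0)
    (H : ∀ h ∈ AA F M γ (p ^ n * N') K',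
      (∀ (y : M) (i : Fin r), y ^ (p ^ (m - 1)) = algebraMap F M (γ i) → h y = y) →
      (h β) ^ (p ^ R) = β ^ (p ^ R)) :
    ∃ (x : Fin r → ℕ) (θ : Fin r → M), (∀ i, θ i ^ (p ^ m) = algebraMap F M (γ i)) ∧
      ∀ M1 : IntermediateField F M, (∀ z : M, z ^ (p ^ n * N') = 1 → z ∈ M1) →
        (∀ (z : M) (i : Fin r), z ^ (p ^ (m - 1) * K') = algebraMap F M (γ i) → z ∈ M1) →
        β / ∏ i, θ i ^ x i ∈ M1 := by
  obtain ⟨ζ, hζ⟩ := hζ
  choose θ' hθ' using hθ
  have hp0 : 0 < p := hp.pos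
  have hpz : NeZero p := ⟨hp.ne_zero⟩
  have hN0 : 0 < N' := Nat.pos_of_ne_zero fun h => hN (h ▸ dvd_zero p)
  have hK0 : 0 < K' := Nat.pos_of_dvd_of_pos hK hN0
  have hpK : ¬ p ∣ K' := fun h => hN (h.trans hK)
  have hn : 1 ≤ n := hm.trans hmn
  have hcop : Nat.Coprime p K' := (Nat.Prime.coprime_iff_not_dvd hp).2 hpK
  have hg0 : ∀ i, algebraMap F M (γ i) ≠ 0 := fun i =>
    (map_ne_zero_iff _ (algebraMap F M).injective).2 (hγ i)
  have hpn : ∀ k, k ≤ n → ∀ z : M, z ^ (p ^ k) = 1 → z ^ (p ^ n * N') = 1 := by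
    intro k hk z hz
    have : p ^ k ∣ p ^ n * N' := (pow_dvd_pow p hk).mul_right _
    obtain ⟨c, hc⟩ := this
    rw [hc, pow_mul, hz, one_pow]
  have hpn1 : ∀ z : M, z ^ p = 1 → z ^ (p ^ n * N') = 1 := by
    intro z hz
    exact hpn 1 hn z (by rwa [pow_one])
  have hpm : p ^ m = p ^ (m - 1) * p := by
    rw [← pow_succ]; congr 1; omega
  set θ : Fin r → M := fun i => θ' i ^ K' with hθdef
  have hθ : ∀ i, θ i ^ (p ^ m) = algebraMap F M (γ i) := by
    intro i
    rw [hθdef]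
    show (θ' i ^ K') ^ (p ^ m) = _
    rw [← pow_mul, mul_comm, hθ' i]
  have hθ0 : ∀ i, θ i ≠ 0 := by
    intro i h
    have := hθ i
    rw [h, zero_pow (pow_ne_zero _ hp.ne_zero)] at this
    exact hg0 i this.symm
  -- primitive `p`-th root of unity
  have hζp : IsPrimitiveRoot (ζ ^ (p ^ (n - 1) * N')) p := by
    refine hζ.pow (by positivity) ?_
    rw [show p ^ n = p ^ (n - 1) * p by rw [← pow_succ]; congr 1; omega]
    ring
  set A := At F M γ p m (p ^ n * N') K' with hAdef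
  -- the action on the generators
  have hz1 : ∀ h ∈ A, ∀ (z : M) (i : Fin r), z ^ (p ^ m * K') = algebraMap F M (γ i) →
      (h z / z) ^ p = 1 := by
    intro h hh z i hz
    have hz0 : z ≠ 0 := by
      rintro rfl
      rw [zero_pow (by positivity)] at hz
      exact hg0 i hz.symm
    have e1 : (h z / z) ^ (K' * p) = 1 := by
      have h1 : (z ^ (K' * p)) ^ (p ^ (m - 1)) = algebraMap F M (γ i) := by
        rw [← pow_mul, ← hz]
        congr 1
        rw [hpm]; ring
      have h2 := hh.2 _ i h1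
      rw [map_pow] at h2
      rw [div_pow, h2, div_self (pow_ne_zero _ hz0)]
    have e2 : (h z / z) ^ (p ^ m) = 1 := by
      have h1 : (z ^ (p ^ m)) ^ K' = algebraMap F M (γ i) := by rw [← pow_mul, hz]
      have h2 := AA_root' hh.1 h1
      rw [map_pow] at h2
      rw [div_pow, h2, div_self (pow_ne_zero _ hz0)]
    have e3 := pow_gcd_one e1 e2
    have e4 : Nat.gcd (K' * p) (p ^ m) = p := by
      rw [hpm, Nat.gcd_mul_right]
      have : Nat.gcd K' (p ^ (m - 1)) = 1 := (hcop.symm.pow_right _)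
      rw [this, one_mul]
    rwa [e4] at e3
  have hA0 : ∀ h ∈ A, h ^ p = 1 := by
    intro h hh
    refine aut_eq_one hgen _ ?_
    rintro z (hz | ⟨i, hz⟩)
    · have : h ^ p ∈ AA F M γ (p ^ n * N') K' := pow_mem hh.1 p
      exact AA_root this hz
    · have hz0 : z ≠ 0 := by
        rintro rfl
        rw [zero_pow (by positivity)] at hz
        exact hg0 i hz.symm
      have h1 := hz1 h hh z i hz
      have h2 : h (h z / z) = h z / z := AA_root hh.1 (hpn1 _ h1)
      have h3 : ∀ k : ℕ, (h ^ k) z = (h z / z) ^ k * z := by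
        intro k
        induction k with
        | zero => simp
        | succ k ih =>
          rw [pow_succ', AlgEquiv.mul_apply, ih, map_mul, map_pow, h2]
          have : h z = (h z / z) * z := by field_simp
          rw [pow_succ, mul_assoc, ← this]
      rw [h3 p, h1, one_mul]
  -- the characters
  have hσ : ∀ i, ∃ s : A →* Multiplicative (ZMod p), ∀ a : A, (a.1 (θ i) / θ i) =
      ph hζp (s a) := by
    intro i
    have e0 : ∀ a : A, (a.1 (θ i) / θ i) ^ p = 1 := by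
      intro a
      have h1 : (θ i ^ p) ^ (p ^ (m - 1)) = algebraMap F M (γ i) := by
        rw [← pow_mul, ← hθ i]
        congr 1
        rw [hpm]; ring
      have h2 := a.2.2 _ i h1
      rw [map_pow] at h2
      rw [div_pow, h2, div_self (pow_ne_zero _ (hθ0 i))]
    refine toZ hζp (fun a : A => a.1 (θ i) / θ i) ?_ e0
    intro a b
    show a.1 (b.1 (θ i)) / θ i = a.1 (θ i) / θ i * (b.1 (θ i) / θ i)
    have h2 : a.1 (b.1 (θ i) / θ i) = b.1 (θ i) / θ i := AA_root a.2.1 (hpn1 _ (e0 b))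
    have h3 : b.1 (θ i) = (b.1 (θ i) / θ i) * θ i := by
      rw [div_mul_cancel₀ _ (hθ0 i)]
    have h4 : a.1 (b.1 (θ i)) = (b.1 (θ i) / θ i) * a.1 (θ i) := by
      conv_lhs => rw [h3, map_mul, h2]
    rw [h4]
    ring
  choose s hs using hσ
  have hχ0 : ∀ a : A, (a.1 β / β) ^ (p ^ R) = 1 := by
    intro a
    rw [div_pow, H a.1 a.2.1 a.2.2, div_self (pow_ne_zero _ hβ)]
  have hχm : ∀ a b : A, a.1 (b.1 β) / β = a.1 β / β * (b.1 β / β) := by
    intro a b
    have h2 : a.1 (b.1 β / β) = b.1 β / β := AA_root a.2.1 (hpn R hR _ (hχ0 b))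
    have h3 : b.1 β = (b.1 β / β) * β := by rw [div_mul_cancel₀ _ hβ]
    have h4 : a.1 (b.1 β) = (b.1 β / β) * a.1 β := by
      conv_lhs => rw [h3, map_mul, h2]
    rw [h4]
    ring
  have hχp : ∀ a : A, (a.1 β / β) ^ p = 1 := by
    intro a
    have h3 : ∀ k : ℕ, ((a.1 ^ k) β) / β = (a.1 β / β) ^ k := by
      intro k
      induction k with
      | zero => simp [div_self hβ]
      | succ k ih =>
        rw [pow_succ', AlgEquiv.mul_apply]
        have := hχm a (a ^ k)
        rw [SubgroupClass.coe_pow] at this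
        rw [this, ih]
        ring
    rw [← h3 p, hA0 a.1 a.2]
    simp [div_self hβ]
  obtain ⟨χ, hχ⟩ := toZ hζp (fun a : A => a.1 β / β) (fun a b => hχm a b) hχp
  have hone : ∀ a : A, (∀ i, s i a = 1) → a = 1 := by
    intro a ha
    have h0 : ∀ i, a.1 (θ i) = θ i := by
      intro i
      have := hs i a
      rw [ha i, map_one] at this
      rwa [div_eq_one_iff_eq (hθ0 i)] at this
    apply Subtype.ext
    refine aut_eq_one hgen _ ?_
    rintro z (hz | ⟨i, hz⟩)
    · exact AA_root a.2.1 hz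
    · have hz0 : z ≠ 0 := by
        rintro rfl
        rw [zero_pow (by positivity)] at hz
        exact hg0 i hz.symm
      have e1 : (a.1 z / z) ^ K' = 1 := by
        have h1 : (z ^ K' / θ i) ^ (p ^ m) = 1 := by
          rw [div_pow, hθ i, ← pow_mul, mul_comm K', hz, div_self (hg0 i)]
        have h2 : a.1 (z ^ K' / θ i) = z ^ K' / θ i := AA_root a.2.1 (hpn m hmn _ h1)
        rw [map_div₀, h0 i, map_pow] at h2
        have h3 := (div_left_inj' (hθ0 i)).1 h2
        rw [div_pow, h3, div_self (pow_ne_zero _ hz0)]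
      have e2 : (a.1 z / z) ^ (p ^ m) = 1 := by
        have h1 : (z ^ (p ^ m)) ^ K' = algebraMap F M (γ i) := by rw [← pow_mul, hz]
        have h2 := AA_root' a.2.1 h1
        rw [map_pow] at h2
        rw [div_pow, h2, div_self (pow_ne_zero _ hz0)]
      have e3 := eq_one_of_coprime (hcop.symm.pow_right m) e1 e2
      rwa [div_eq_one_iff_eq hz0] at e3
  obtain ⟨x, hx⟩ := hEXT A p hp r s χ (fun a ha => by rw [hone a ha, map_one])
  have hT0 : ∏ i, θ i ^ x i ≠ 0 := Finset.prod_ne_zero_iff.2 fun i _ => pow_ne_zero _ (hθ0 i)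
  have hfix : ∀ a : A, a.1 (β / ∏ i, θ i ^ x i) = β / ∏ i, θ i ^ x i := by
    intro a
    have h1 : a.1 β / β = ∏ i, (a.1 (θ i) / θ i) ^ x i := by
      have h2 : a.1 β / β = ph hζp (χ a) := hχ a
      rw [h2, hx a, map_prod]
      refine Finset.prod_congr rfl fun i _ => ?_
      rw [map_pow, hs i a]
    rw [map_div₀, map_prod]
    simp only [map_pow]
    have h2 : ∏ i, (a.1 (θ i) / θ i) ^ x i = (∏ i, a.1 (θ i) ^ x i) / ∏ i, θ i ^ x i := by
      rw [← Finset.prod_div_distrib]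
      exact Finset.prod_congr rfl fun i _ => div_pow _ _ _
    have h3 : ∏ i, a.1 (θ i) ^ x i ≠ 0 := Finset.prod_ne_zero_iff.2 fun i _ =>
      pow_ne_zero _ ((map_ne_zero_iff _ a.1.injective).2 (hθ0 i))
    rw [h2, div_eq_div_iff hβ hT0] at h1
    rw [div_eq_div_iff h3 hT0, h1, mul_comm]
  refine ⟨x, θ, hθ, fun M1 hM1 hM2 => ?_⟩
  rw [← IsGalois.fixedField_fixingSubgroup M1, IntermediateField.mem_fixedField_iff]
  intro h hh
  rw [IntermediateField.mem_fixingSubgroup_iff] at hh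
  have hw : ∀ i, ∃ w : M, w ^ (p ^ (m - 1) * K') = algebraMap F M (γ i) := by
    intro i
    refine ⟨θ' i ^ p, ?_⟩
    rw [← hθ' i, ← pow_mul]
    congr 1
    rw [hpm]; ring
  choose w hw using hw
  have hhA : h ∈ A := by
    refine ⟨?_, ?_⟩
    · rintro y (hy | ⟨i, hy⟩)
      · exact hh y (hM1 y hy)
      · have e1 : (w i ^ (p ^ (m - 1))) ^ K' = algebraMap F M (γ i) := by rw [← pow_mul, hw i]
        have e2 : y / w i ^ (p ^ (m - 1)) ∈ M1 := by
          apply hM1
          have e3 : (y / w i ^ (p ^ (m - 1))) ^ K' = 1 := by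
            rw [div_pow, hy, e1, div_self (hg0 i)]
          obtain ⟨c, hc⟩ := hK.mul_left (p ^ n)
          rw [hc, pow_mul, e3, one_pow]
        have e4 : w i ^ (p ^ (m - 1)) ≠ 0 := by
          intro e5
          rw [e5, zero_pow hK0.ne'] at e1
          exact hg0 i e1.symm
        apply hh
        rw [← div_mul_cancel₀ y e4]
        exact mul_mem e2 (pow_mem (hM2 _ i (hw i)) _)
    · intro y i hy
      have e1 : (w i ^ K') ^ (p ^ (m - 1)) = algebraMap F M (γ i) := by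
        rw [← pow_mul, mul_comm, hw i]
      have e2 : y / w i ^ K' ∈ M1 := by
        apply hM1
        apply hpn (m - 1) (by omega)
        rw [div_pow, hy, e1, div_self (hg0 i)]
      have e4 : w i ^ K' ≠ 0 := by
        intro e5
        rw [e5, zero_pow (pow_ne_zero _ hp.ne_zero)] at e1
        exact hg0 i e1.symm
      apply hh
      rw [← div_mul_cancel₀ y e4]
      exact mul_mem e2 (pow_mem (hM2 _ i (hw i)) _)
  exact hfix ⟨h, hhA⟩

end core

theorem pf_SK2 : T_LVB → T_EXT → T_SK2 := by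
  intro hLVB hEXT F Ω _ _ _ _ _ _ _ p hp r γ hγ n m R N' K' hm hmn hR hN hK β hβ H
  have hN0 : 0 < N' := Nat.pos_of_ne_zero fun h => hN (h ▸ dvd_zero p)
  have hK0 : 0 < K' := Nat.pos_of_dvd_of_pos hK hN0
  have hp0 := hp.pos
  obtain ⟨h1, h2, h3, h4, h5, -⟩ := hLVB F Ω r γ hγ (p ^ n * N') (p ^ m * K') (by positivity)
    (by positivity)
  obtain ⟨x, θ, hθ, hM⟩ := core hp hγ hm hmn hR hN hK h3 h4 h5 hEXT β hβ H
  have hg0 : ∀ i, algebraMap F (Lv F Ω γ (p ^ n * N') (p ^ m * K')) (γ i) ≠ 0 := fun i =>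
    (map_ne_zero_iff _ (algebraMap F _).injective).2 (hγ i)
  have hθ0 : ∀ i, θ i ≠ 0 := by
    intro i h
    have := hθ i
    rw [h, zero_pow (pow_ne_zero _ hp.ne_zero)] at this
    exact hg0 i this.symm
  have hT0 : ∏ i, θ i ^ x i ≠ 0 := Finset.prod_ne_zero_iff.2 fun i _ => pow_ne_zero _ (hθ0 i)
  have hb := hM ((Lv F Ω γ (p ^ n * N') (p ^ (m - 1) * K')).comap
    (Lv F Ω γ (p ^ n * N') (p ^ m * K')).val) ?_ ?_
  · refine ⟨((β / ∏ i, θ i ^ x i : Lv F Ω γ (p ^ n * N') (p ^ m * K')) : Ω), hb, ?_,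
      ((∏ i, θ i ^ x i : Lv F Ω γ (p ^ n * N') (p ^ m * K')) : Ω), ⟨?_, p ^ m, by positivity,
        fun i => (x i : ℤ), ?_⟩, ?_⟩
    · intro h
      exact div_ne_zero hβ hT0 (by exact_mod_cast h)
    · intro h
      exact hT0 (by exact_mod_cast h)
    · have e1 : (∏ i, θ i ^ x i) ^ (p ^ m) = ∏ i, (algebraMap F
          (Lv F Ω γ (p ^ n * N') (p ^ m * K')) (γ i)) ^ x i := by
        rw [← Finset.prod_pow]
        refine Finset.prod_congr rfl fun i _ => ?_
        rw [← pow_mul, mul_comm (x i), pow_mul, hθ i]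
      have e2 := congrArg (Subtype.val) e1
      simp only [zpow_natCast]
      push_cast at e2 ⊢
      exact e2
    · have e1 : β = β / (∏ i, θ i ^ x i) * ∏ i, θ i ^ x i := (div_mul_cancel₀ _ hT0).symm
      exact congrArg Subtype.val e1
  · intro z hz
    show (z : Ω) ∈ Lv F Ω γ (p ^ n * N') (p ^ (m - 1) * K')
    exact IntermediateField.subset_adjoin F _ (Or.inl (by exact_mod_cast congrArg Subtype.val hz))
  · intro z i hz
    show (z : Ω) ∈ Lv F Ω γ (p ^ n * N') (p ^ (m - 1) * K')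
    exact IntermediateField.subset_adjoin F _ (Or.inr ⟨i, congrArg Subtype.val hz⟩)

end Pool.Agent.H59.RD
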