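import Pool.Agent.H24.RD.Targets

/-! rem_modules SEP: separation of subgroups of `(ℤ/q)^r` by functionals -/

set_option autoImplicit false

namespace Pool.Agent.H59.RD

open Pool.Agent.H24.RD Finset

theorem zmod_eq {q : ℕ} [NeZero q] (x y : ZMod q) : AddChar.zmod q x y = AddChar.zmod q 1 (x * y) := by
  unfold AddChar.zmod
  simp [AddChar.compAddMonoidHom_apply]

theorem zmod_one_inj {q : ℕ} [NeZero q] (z : ZMod q) (h : AddChar.zmod q 1 z = 1) : z = 0 := by
  apply AddChar.zmod_injective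
  ext y
  obtain ⟨k, rfl⟩ := ZMod.natCast_zmod_surjective y
  rw [zmod_eq, mul_comm, ← nsmul_eq_mul, AddChar.map_nsmul_eq_pow, h]
  simp

theorem map_sum_eq_prod' {A ι M : Type*} [AddCommMonoid A] [CommMonoid M] (ψ : AddChar A M)
    (f : ι → A) (s : Finset ι) : ψ (∑ i ∈ s, f i) = ∏ i ∈ s, ψ (f i) := by
  classical
  induction s using Finset.induction_on with
  | empty => simp
  | insert a s ha ih => rw [Finset.sum_insert ha, Finset.prod_insert ha, AddChar.map_add_eq_mul, ih]

theorem pf_SEP : T_SEP := by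
  intro q r hq B w hw
  have : NeZero q := ⟨hq.ne'⟩
  by_contra hwB
  have h1 : (QuotientAddGroup.mk' B w) ≠ 0 := by
    intro h
    exact hwB ((QuotientAddGroup.eq_zero_iff w).1 h)
  obtain ⟨ψ0, hψ0⟩ := AddChar.exists_apply_ne_zero.2 h1
  obtain ⟨ψ1, rfl⟩ := AddChar.circleEquivComplex.surjective ψ0
  have hψ1 : ψ1 (QuotientAddGroup.mk' B w) ≠ 1 := by
    intro h
    apply hψ0
    show ((ψ1 (QuotientAddGroup.mk' B w) : Circle) : ℂ) = 1
    rw [h]; simp
  let ψ : AddChar (Fin r → ZMod q) Circle := ψ1.compAddMonoidHom (QuotientAddGroup.mk' B)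
  have hx : ∀ i, ∃ x : ZMod q, AddChar.zmod q x =
      ψ.compAddMonoidHom (AddMonoidHom.single (fun _ : Fin r => ZMod q) i) := by
    intro i
    obtain ⟨x, hx⟩ := AddChar.zmodAddEquiv.surjective
      (AddChar.circleEquivComplex (ψ.compAddMonoidHom (AddMonoidHom.single (fun _ : Fin r => ZMod q) i)))
    refine ⟨x, ?_⟩
    rw [AddChar.zmodAddEquiv_apply] at hx
    exact AddChar.circleEquivComplex.injective hx
  choose x hx using hx
  have hψ : ∀ b : Fin r → ZMod q, ψ b = AddChar.zmod q 1 (∑ i, x i * b i) := by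
    intro b
    rw [map_sum_eq_prod']
    have e : b = ∑ i, AddMonoidHom.single (fun _ : Fin r => ZMod q) i (b i) := by
      simp only [AddMonoidHom.single_apply]
      exact (Finset.univ_sum_single b).symm
    conv_lhs => rw [e]
    rw [map_sum_eq_prod']
    refine Finset.prod_congr rfl fun i _ => ?_
    rw [← zmod_eq, hx i]
    rfl
  apply hψ1
  have h2 : ψ w = 1 := by
    rw [hψ w, hw x ?_, AddChar.map_zero_eq_one]
    intro b hb
    apply zmod_one_inj
    rw [← hψ b]
    show ψ1 (QuotientAddGroup.mk' B b) = 1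
    have : QuotientAddGroup.mk' B b = 0 := (QuotientAddGroup.eq_zero_iff b).2 hb
    rw [this, AddChar.map_zero_eq_one]
  exact h2

end Pool.Agent.H59.RD
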