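import Pool.Agent.H59.RD.P1Key

/-!
# MP_609556_an: module P1B (sub-barrier)
-/

open MeasureTheory Set Filter Topology Metric

namespace Pool.Agent.H59.RD

open Pool.Agent.H91.RD

theorem front_antitone {f : ℝ → ℝ} {c lam : ℝ} {φ : ℝ → ℝ} (h : Front f c lam φ) {a b : ℝ}
    (hab : a ≤ b) : φ b ≤ φ a :=
  antitone_of_deriv_nonpos (h.c2.differentiable (by norm_num)) (fun z => (h.dec z).le) hab

theorem key {N : ℕ} {f φ : ℝ → ℝ} {c lam K k μ η0 θ β C : ℝ} (hN : 1 ≤ N)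
    (h : Hyp f c lam φ K k μ η0 θ) (F : FrP c lam β C φ)
    {ε1 z0 κ G B q0 y0 : ℝ}
    (hε1 : 2 * ε1 = c ^ 2 / 4 - k) (hε0 : 0 < ε1)
    (hz0 : 0 < z0) (hz1 : φ z0 ≤ η0) (hz2 : 1 - η0 / 2 ≤ φ (-z0))
    (hz3 : c ^ 2 / 4 * psi c z0 ≤ ε1 / 2)
    (hκ : ∀ z ∈ Icc (-z0) z0, deriv φ z ≤ -κ)
    (hG : G = K + c ^ 2 / 4 + c) (hB0 : 0 ≤ B) (hB : B * (κ * c) = 8 * G)
    (hq1 : q0 ≤ η0 / 2) (hq2 : B * q0 ≤ 1 / 2) (hq3 : c ^ 2 / 4 * (B * q0) ≤ ε1 / 4)
    (hy1 : 1 ≤ y0) (hya : c / (2 * y0) ≤ ε1 / 4) (hyb : 4 * C * (N + 1) ≤ ε1 * (q0 * y0))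
    (hyc : c / (2 * y0) ≤ μ / 2) (hyd : 16 * C * (N + 1) ≤ μ * (q0 * y0))
    (hye : ∀ y ≥ y0, C * (N + 1) * Real.exp (-(β * y / 4)) * y ≤ μ * q0 / 4)
    (hyf : 4 * z0 ≤ y0) (hyg : 4 * C * (N + 1) ≤ 3 * G * (q0 * y0))
    {q y ρ r : ℝ} (hy : y0 ≤ y) (hq : 0 < q) (hqq : q ≤ q0) (hqy : q0 * y0 ≤ q * y)
    (hρ : y / 2 ≤ ρ) (hr : 1 ≤ r) (hS : 0 < φ (r - ρ) - q * psi c (r - ρ)) :
    0 ≤ (-(c * (B * q / 2)) * deriv φ (r - ρ)) +
      (f (φ (r - ρ) - q * psi c (r - ρ)) - f (φ (r - ρ))) +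
      (-deriv (deriv φ) (r - ρ) * (1 / r ^ 2) +
        deriv φ (r - ρ) * (((N : ℝ) - 1) / r + 1 / r ^ 3)) +
      q * (-(c ^ 2 / 4) * (psi c (r - ρ) * (1 - psi c (r - ρ))) * (1 - 2 * psi c (r - ρ)) *
        (1 - 1 / r ^ 2) +
      (c / 2) * (psi c (r - ρ) * (1 - psi c (r - ρ))) * (((N : ℝ) - 1) / r + 1 / r ^ 3) +
      (c / 2) * (c * (1 - B * q / 2)) * (psi c (r - ρ) * (1 - psi c (r - ρ))) -
      c / (2 * y) * psi c (r - ρ)) := by
  have hc := h.front.cpos
  have hlam := h.front.fast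
  have hKp := h.toLip.K0
  have hμ := h.mu0
  have hC : 1 ≤ C := F.one
  have hN' : (1 : ℝ) ≤ N := by exact_mod_cast hN
  have hr0 : 0 < r := by linarith
  have hy0p : 0 < y0 := by linarith
  have hyp : 0 < y := by linarith
  have hy1' : 1 ≤ y := by linarith
  have hw0 : 0 ≤ 1 / r ^ 2 := by positivity
  have hw1 : 1 / r ^ 2 ≤ 1 := by
    rw [div_le_one (by positivity)]
    exact one_le_pow₀ hr
  have hA : 0 ≤ ((N : ℝ) - 1) / r + 1 / r ^ 3 := by
    have : 0 ≤ ((N : ℝ) - 1) / r := div_nonneg (by linarith) hr0.le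
    positivity
  have hψ0 := psi_pos c (r - ρ)
  have hψ1 := psi_lt_one c (r - ρ)
  have hBq : B * q ≤ 1 / 2 := (mul_le_mul_of_nonneg_left hqq hB0).trans hq2
  have hcy : c / (2 * y) ≤ c / (2 * y0) := by
    apply div_le_div_of_nonneg_left hc.le (by positivity) (by linarith)
  have hCN : 0 ≤ C * (N + 1) := by positivity
  have hP0 : 0 ≤ -(c * (B * q / 2)) * deriv φ (r - ρ) := by
    have h1 := h.front.dec (r - ρ)
    have h2 : 0 ≤ c * (B * q / 2) := by positivity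
    exact mul_nonneg_of_nonpos_of_nonpos (by linarith) h1.le
  set z := r - ρ with hz
  have hSlt : φ z - q * psi c z ≤ φ z := by
    have : 0 ≤ q * psi c z := by positivity
    linarith
  rcases le_or_gt z0 z with hR | hnR
  · -- region R
    have hzpos : 0 ≤ z := hz0.le.trans hR
    have hφz : φ z ≤ η0 := (front_antitone h.front hR).trans hz1
    have hF : -(k * (q * psi c z)) ≤ f (φ z - q * psi c z) - f (φ z) := by
      have := h.near0 (φ z - q * psi c z) (φ z) hS.le hSlt hφz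
      linarith
    have hE := Real.exp_pos (-(lam * z))
    have hX := bad_bound (N := N) hN (r := r) hr (F.p1 z hzpos) (F.p2 z hzpos)
    have hexp : Real.exp (-(lam * z)) ≤ Real.exp (-(c * z / 2)) := by
      apply Real.exp_le_exp.2
      have := mul_le_mul_of_nonneg_right hlam.le hzpos
      linarith
    have hry : y / 2 ≤ r := by
      have : r = z + ρ := by rw [hz]; ring
      linarith
    have hbad : C * Real.exp (-(lam * z)) * (N + 1) / r ≤
        ε1 * q * Real.exp (-(c * z / 2)) / 2 := by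
      rw [div_le_iff₀ hr0]
      have e1 : C * Real.exp (-(lam * z)) * (N + 1) ≤ C * (N + 1) * Real.exp (-(c * z / 2)) := by
        calc C * Real.exp (-(lam * z)) * (N + 1) = C * (N + 1) * Real.exp (-(lam * z)) := by ring
          _ ≤ _ := mul_le_mul_of_nonneg_left hexp hCN
      refine e1.trans ?_
      have e2 : C * (N + 1) ≤ ε1 * q / 2 * r := by
        have a1 : ε1 * (q0 * y0) ≤ ε1 * (q * y) := mul_le_mul_of_nonneg_left hqy hε0.le
        have a2 : ε1 * q / 2 * (y / 2) ≤ ε1 * q / 2 * r :=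
          mul_le_mul_of_nonneg_left hry (by positivity)
        have a3 : ε1 * q / 2 * (y / 2) = ε1 * (q * y) / 4 := by ring
        linarith
      calc C * (N + 1) * Real.exp (-(c * z / 2)) ≤ (ε1 * q / 2 * r) * Real.exp (-(c * z / 2)) :=
            mul_le_mul_of_nonneg_right e2 (Real.exp_pos _).le
        _ = _ := by ring
    refine regionR (bad := C * Real.exp (-(lam * z)) * (N + 1) / r) (e := Real.exp (-(c * z / 2)))
      hc hψ0 (psi_le_half hc hzpos) ?_ (psi_lower hc hzpos) hq hB0 ?_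
      (hcy.trans hya) hε1 hε0 hw0 hw1 hA hF hP0 hX hbad
    · exact (mul_le_mul_of_nonneg_left (psi_anti hc hR) (by positivity)).trans hz3
    · exact (mul_le_mul_of_nonneg_left (mul_le_mul_of_nonneg_left hqq hB0) (by positivity)).trans hq3
  rcases le_or_gt z (-z0) with hL | hnL
  · -- region L
    have hzneg : z ≤ 0 := by linarith
    have hφz : 1 - η0 / 2 ≤ φ z := hz2.trans (front_antitone h.front hL)
    have hF : μ * (q * psi c z) ≤ f (φ z - q * psi c z) - f (φ z) := by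
      have h1 : q * psi c z ≤ η0 / 2 := by
        have : q * psi c z ≤ q * 1 := mul_le_mul_of_nonneg_left hψ1.le hq.le
        linarith
      have := h.near1 (φ z - q * psi c z) (φ z) (by linarith) hSlt (F.lt z).le
      have e : φ z - (φ z - q * psi c z) = q * psi c z := by ring
      rw [e] at this
      linarith
    rcases le_or_gt (ρ / 2) r with hr2 | hr2
    · have hX := bad_bound (N := N) hN (r := r) hr (F.d1 z) (F.d2 z)
      refine regionL (bad := C * (N + 1) / r) hc (half_le_psi hc hzneg) hψ1 hq (by linarith)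
        (hcy.trans hyc) hμ hw1 hA hF hP0 hX ?_
      rw [div_le_iff₀ hr0]
      have a1 : μ * (q0 * y0) ≤ μ * (q * y) := mul_le_mul_of_nonneg_left hqy hμ.le
      have a2 : μ * q / 4 * (y / 4) ≤ μ * q / 4 * r :=
        mul_le_mul_of_nonneg_left (by linarith) (by positivity)
      have a3 : μ * q / 4 * (y / 4) = μ * (q * y) / 16 := by ring
      linarith
    · have hX := bad_bound (N := N) hN (r := r) hr (F.n1 z hzneg) (F.n2 z hzneg)
      refine regionL (bad := C * Real.exp (β * z) * (N + 1) / r) hc (half_le_psi hc hzneg) hψ1 hq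
        (by linarith) (hcy.trans hyc) hμ hw1 hA hF hP0 hX ?_
      have hb := F.b0
      have e1 : Real.exp (β * z) ≤ Real.exp (-(β * y / 4)) := by
        apply Real.exp_le_exp.2
        have : z ≤ -(y / 4) := by rw [hz]; linarith
        have := mul_le_mul_of_nonneg_left this hb.le
        linarith
      have e2 : C * Real.exp (β * z) * (N + 1) / r ≤ C * (N + 1) * Real.exp (-(β * y / 4)) := by
        have a0 : 0 ≤ C * Real.exp (β * z) * (N + 1) := by positivity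
        calc C * Real.exp (β * z) * (N + 1) / r ≤ C * Real.exp (β * z) * (N + 1) :=
              div_le_self a0 hr
          _ = C * (N + 1) * Real.exp (β * z) := by ring
          _ ≤ _ := mul_le_mul_of_nonneg_left e1 hCN
      refine e2.trans ?_
      have e3 := hye y hy
      have hq0 : 0 < q0 := lt_of_lt_of_le hq hqq
      have e4 : μ * q0 / 4 ≤ μ * q / 4 * y := by
        have a1 : μ * (q0 * y0) ≤ μ * (q * y) := mul_le_mul_of_nonneg_left hqy hμ.le
        have a2 : μ * q0 * 1 ≤ μ * q0 * y0 := mul_le_mul_of_nonneg_left hy1 (by positivity)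
        have a3 : μ * q / 4 * y = μ * (q * y) / 4 := by ring
        linarith
      exact le_of_mul_le_mul_right (e3.trans e4) hyp
  · -- region M
    have hzI : z ∈ Icc (-z0) z0 := ⟨hnL.le, hnR.le⟩
    have hry : y / 4 ≤ r := by
      have : r = z + ρ := by rw [hz]; ring
      linarith
    have hF : -(K * (q * psi c z)) ≤ f (φ z - q * psi c z) - f (φ z) := by
      have := h.toLip.lip (φ z - q * psi c z) (φ z)
      have e : φ z - q * psi c z - φ z = -(q * psi c z) := by ring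
      rw [e, abs_neg, abs_of_nonneg (by positivity : 0 ≤ q * psi c z)] at this
      exact (abs_le.1 this).1
    have hP : 4 * q * G ≤ -(c * (B * q / 2)) * deriv φ z := by
      have h1 := hκ z hzI
      have h2 : 0 ≤ c * (B * q / 2) := by positivity
      have h3 : c * (B * q / 2) * κ = 4 * q * G := by
        have : c * (B * q / 2) * κ = B * (κ * c) * q / 2 := by ring
        rw [this, hB]; ring
      have h4 := mul_le_mul_of_nonneg_left h1 h2
      linarith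
    have hX := bad_bound (N := N) hN (r := r) hr (F.d1 z) (F.d2 z)
    have hGp : 0 < G := by rw [hG]; positivity
    refine regionM (bad := C * (N + 1) / r) hc hψ0 hψ1 hq (by linarith) hy1' hw0 hw1 hA hKp hG hF
      hP hX ?_
    rw [div_le_iff₀ hr0]
    have a1 : 3 * G * (q0 * y0) ≤ 3 * G * (q * y) := mul_le_mul_of_nonneg_left hqy (by positivity)
    have a2 : 3 * q * G * (y / 4) ≤ 3 * q * G * r := mul_le_mul_of_nonneg_left hry (by positivity)
    have a3 : 3 * q * G * (y / 4) = 3 * G * (q * y) / 4 := by ring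
    linarith

/-- the choice of the constants -/
theorem constants {N : ℕ} {f φ : ℝ → ℝ} {c lam K k μ η0 θ β C : ℝ}
    (h : Hyp f c lam φ K k μ η0 θ) (F : FrP c lam β C φ) :
    ∃ ε1 z0 κ G B q0 y0 : ℝ, 2 * ε1 = c ^ 2 / 4 - k ∧ 0 < ε1 ∧ 0 < z0 ∧ φ z0 ≤ η0 ∧
      1 - η0 / 2 ≤ φ (-z0) ∧ c ^ 2 / 4 * psi c z0 ≤ ε1 / 2 ∧
      (∀ z ∈ Icc (-z0) z0, deriv φ z ≤ -κ) ∧ G = K + c ^ 2 / 4 + c ∧ 0 ≤ B ∧
      B * (κ * c) = 8 * G ∧ 0 < q0 ∧ q0 ≤ η0 / 2 ∧ B * q0 ≤ 1 / 2 ∧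
      c ^ 2 / 4 * (B * q0) ≤ ε1 / 4 ∧ 1 ≤ y0 ∧ c / (2 * y0) ≤ ε1 / 4 ∧
      4 * C * (N + 1) ≤ ε1 * (q0 * y0) ∧ c / (2 * y0) ≤ μ / 2 ∧
      16 * C * (N + 1) ≤ μ * (q0 * y0) ∧
      (∀ y ≥ y0, C * (N + 1) * Real.exp (-(β * y / 4)) * y ≤ μ * q0 / 4) ∧
      4 * z0 ≤ y0 ∧ 4 * C * (N + 1) ≤ 3 * G * (q0 * y0) := by
  have hc := h.front.cpos
  have hKp := h.toLip.K0
  have hμ := h.mu0
  have hη := h.eta0
  have hkc := h.kc
  have hb := F.b0
  set ε1 : ℝ := (c ^ 2 / 4 - k) / 2 with hε1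
  have hε0 : 0 < ε1 := by rw [hε1]; linarith
  -- `z0`
  have hz : ∃ z0 : ℝ, 0 < z0 ∧ φ z0 ≤ η0 ∧ 1 - η0 / 2 ≤ φ (-z0) ∧
      c ^ 2 / 4 * psi c z0 ≤ ε1 / 2 := by
    have e1 : ∀ᶠ z in atTop, φ z < η0 := h.front.right.eventually (gt_mem_nhds hη)
    have e2 : ∀ᶠ z in atTop, 1 - η0 / 2 < φ (-z) :=
      (h.front.left.comp tendsto_neg_atTop_atBot).eventually (lt_mem_nhds (by linarith))
    have e3 : ∀ᶠ z in atTop, c ^ 2 / 4 * psi c z < ε1 / 2 := by
      have := (tendsto_psi hc).const_mul (c ^ 2 / 4)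
      rw [mul_zero] at this
      exact this.eventually (gt_mem_nhds (by positivity))
    obtain ⟨z, ⟨⟨h1, h2⟩, h3⟩, h4⟩ := (((e1.and e2).and e3).and (eventually_gt_atTop 0)).exists
    exact ⟨z, h4, h1.le, h2.le, h3.le⟩
  obtain ⟨z0, hz0, hz1, hz2, hz3⟩ := hz
  -- `κ`
  have hκ : ∃ κ > 0, ∀ z ∈ Icc (-z0) z0, deriv φ z ≤ -κ := by
    have hcont : ContinuousOn (deriv φ) (Icc (-z0) z0) :=
      (h.front.c2.continuous_deriv (by norm_num)).continuousOn
    obtain ⟨x, hx, hmax⟩ := isCompact_Icc.exists_isMaxOn (nonempty_Icc.2 (by linarith)) hcont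
    exact ⟨-deriv φ x, by linarith [h.front.dec x], fun z hz => by
      have := hmax hz
      exact (show deriv φ z ≤ deriv φ x from this).trans (by linarith)⟩
  obtain ⟨κ, hκ0, hκ⟩ := hκ
  set G : ℝ := K + c ^ 2 / 4 + c with hG
  have hG0 : 0 < G := by positivity
  set B : ℝ := 8 * G / (κ * c) with hB
  have hB0 : 0 < B := by positivity
  have hBe : B * (κ * c) = 8 * G := by rw [hB]; field_simp
  -- `q0`
  set q0 : ℝ := min (η0 / 2) (min (1 / (2 * B)) (ε1 / 4 / (c ^ 2 / 4 * B))) with hq0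
  have hq0p : 0 < q0 := by
    rw [hq0]
    refine lt_min (by positivity) (lt_min (by positivity) (by positivity))
  have hq1 : q0 ≤ η0 / 2 := min_le_left _ _
  have hq2 : B * q0 ≤ 1 / 2 := by
    have : q0 ≤ 1 / (2 * B) := (min_le_right _ _).trans (min_le_left _ _)
    calc B * q0 ≤ B * (1 / (2 * B)) := mul_le_mul_of_nonneg_left this hB0.le
      _ = 1 / 2 := by field_simp
  have hq3 : c ^ 2 / 4 * (B * q0) ≤ ε1 / 4 := by
    have : q0 ≤ ε1 / 4 / (c ^ 2 / 4 * B) := (min_le_right _ _).trans (min_le_right _ _)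
    rw [le_div_iff₀ (by positivity)] at this
    linarith
  -- `y0`
  have t1 : ∀ᶠ y : ℝ in atTop, c / (2 * y) < ε1 / 4 := by
    have : Tendsto (fun y : ℝ => c / (2 * y)) atTop (𝓝 0) :=
      Tendsto.div_atTop tendsto_const_nhds (tendsto_id.const_mul_atTop (by norm_num))
    exact this.eventually (gt_mem_nhds (by positivity))
  have t2 : ∀ᶠ y : ℝ in atTop, c / (2 * y) < μ / 2 := by
    have : Tendsto (fun y : ℝ => c / (2 * y)) atTop (𝓝 0) :=
      Tendsto.div_atTop tendsto_const_nhds (tendsto_id.const_mul_atTop (by norm_num))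
    exact this.eventually (gt_mem_nhds (by positivity))
  have hlin : ∀ a b : ℝ, 0 < a → ∀ᶠ y : ℝ in atTop, b ≤ a * (q0 * y) := by
    intro a b ha
    have : Tendsto (fun y : ℝ => a * (q0 * y)) atTop atTop :=
      (tendsto_id.const_mul_atTop hq0p).const_mul_atTop ha
    exact this.eventually (eventually_ge_atTop b)
  have t6 : ∀ᶠ y' : ℝ in atTop, ∀ y ≥ y', C * (N + 1) * Real.exp (-(β * y / 4)) * y ≤
      μ * q0 / 4 := by
    have h1 : Tendsto (fun y : ℝ => C * (N + 1) * (y * Real.exp (-(β / 4) * y))) atTop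
        (𝓝 (C * (N + 1) * 0)) := by
      apply Tendsto.const_mul
      have := Real.tendsto_pow_mul_exp_neg_atTop_nhds_zero 1
      have h2 : Tendsto (fun y : ℝ => (β / 4) * y) atTop atTop :=
        tendsto_id.const_mul_atTop (by positivity)
      have h3 := (this.comp h2).const_mul (4 / β)
      rw [mul_zero] at h3
      refine h3.congr (fun y => ?_)
      simp only [Function.comp, pow_one]
      have : -(β / 4) * y = -(β / 4 * y) := by ring
      rw [this]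
      field_simp
    rw [mul_zero] at h1
    have h2 := h1.eventually (gt_mem_nhds (by positivity : 0 < μ * q0 / 4))
    rw [eventually_atTop] at h2
    obtain ⟨b, hb'⟩ := h2
    filter_upwards [eventually_ge_atTop b] with y' hy' y hy
    have h4 := (hb' y (hy'.trans hy)).le
    calc C * (N + 1) * Real.exp (-(β * y / 4)) * y = C * (N + 1) * (y * Real.exp (-(β / 4) * y)) := by
          have : -(β * y / 4) = -(β / 4) * y := by ring
          rw [this]; ring
      _ ≤ _ := h4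
  obtain ⟨y0, ⟨⟨⟨⟨⟨⟨⟨a1, a2⟩, a3⟩, a4⟩, a5⟩, a6⟩, a7⟩, a8⟩⟩ :=
    (((((((t1.and t2).and (hlin ε1 (4 * C * (N + 1)) hε0)).and
      (hlin μ (16 * C * (N + 1)) hμ)).and (hlin (3 * G) (4 * C * (N + 1)) (by positivity))).and
      t6).and (eventually_ge_atTop 1)).and (eventually_ge_atTop (4 * z0))).exists
  exact ⟨ε1, z0, κ, G, B, q0, y0, by rw [hε1]; ring, hε0, hz0, hz1, hz2, hz3, hκ, hG, hB0.le, hBe,
    hq0p, hq1, hq2, hq3, a7, a1.le, a3, a2.le, a4, a6, a8, a5⟩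

/-! ### the barrier -/

/-- `y(τ) = y₀ + c τ` -/
noncomputable def Yt (c y0 τ : ℝ) : ℝ := y0 + c * τ

/-- `q(τ) = q₀ √y₀ / √y(τ)` -/
noncomputable def qt (c q0 y0 τ : ℝ) : ℝ := q0 * √y0 / √(Yt c y0 τ)

/-- `ρ(τ) = y(τ) - B q₀ √y₀ (√y(τ) - √y₀)` -/
noncomputable def rt (c B q0 y0 τ : ℝ) : ℝ := Yt c y0 τ - B * (q0 * √y0) * (√(Yt c y0 τ) - √y0)

/-- the barrier -/
noncomputable def Sb (φ : ℝ → ℝ) (c B q0 y0 τ r : ℝ) : ℝ :=
  φ (r - rt c B q0 y0 τ) - qt c q0 y0 τ * psi c (r - rt c B q0 y0 τ)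

theorem Yt_ge {c y0 τ : ℝ} (hc : 0 < c) (hτ : 0 ≤ τ) : y0 ≤ Yt c y0 τ := by
  unfold Yt
  have : 0 ≤ c * τ := by positivity
  linarith

theorem hasDerivAt_Yt (c y0 τ : ℝ) : HasDerivAt (Yt c y0) c τ := by
  unfold Yt
  have := ((hasDerivAt_id τ).const_mul c).const_add y0
  simpa using this

theorem hasDerivAt_sqrtY {c y0 τ : ℝ} (hY : 0 < Yt c y0 τ) :
    HasDerivAt (fun s => √(Yt c y0 s)) (c / (2 * √(Yt c y0 τ))) τ :=
  (hasDerivAt_Yt c y0 τ).sqrt hY.ne'

theorem hasDerivAt_qt {c q0 y0 τ : ℝ} (hY : 0 < Yt c y0 τ) :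
    HasDerivAt (qt c q0 y0) (-(c / (2 * Yt c y0 τ)) * qt c q0 y0 τ) τ := by
  have hs : 0 < √(Yt c y0 τ) := Real.sqrt_pos.2 hY
  have h1 := (hasDerivAt_const τ (q0 * √y0)).div (hasDerivAt_sqrtY hY) hs.ne'
  have h2 : HasDerivAt (qt c q0 y0)
      ((0 * √(Yt c y0 τ) - q0 * √y0 * (c / (2 * √(Yt c y0 τ)))) / √(Yt c y0 τ) ^ 2) τ := h1
  refine h2.congr_deriv ?_
  unfold qt
  rw [Real.sq_sqrt hY.le]
  field_simp
  ring

theorem hasDerivAt_rt {c B q0 y0 τ : ℝ} (hY : 0 < Yt c y0 τ) :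
    HasDerivAt (rt c B q0 y0) (c * (1 - B * qt c q0 y0 τ / 2)) τ := by
  have hs : 0 < √(Yt c y0 τ) := Real.sqrt_pos.2 hY
  have h1 : HasDerivAt (rt c B q0 y0) (c - B * (q0 * √y0) * (c / (2 * √(Yt c y0 τ)))) τ :=
    (hasDerivAt_Yt c y0 τ).sub (((hasDerivAt_sqrtY hY).sub_const _).const_mul _)
  refine h1.congr_deriv ?_
  unfold qt
  field_simp

theorem hasDerivAt_Sb_r {φ : ℝ → ℝ} (hφ : ContDiff ℝ 2 φ) (c B q0 y0 τ r : ℝ) :
    HasDerivAt (Sb φ c B q0 y0 τ) (deriv φ (r - rt c B q0 y0 τ) -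
      qt c q0 y0 τ * deriv (psi c) (r - rt c B q0 y0 τ)) r := by
  have h1 : HasDerivAt (fun r => r - rt c B q0 y0 τ) 1 r := (hasDerivAt_id r).sub_const _
  have h2 : HasDerivAt φ (deriv φ (r - rt c B q0 y0 τ)) (r - rt c B q0 y0 τ) :=
    ((hφ.differentiable (by norm_num)) _).hasDerivAt
  have h3 : HasDerivAt (psi c) (deriv (psi c) (r - rt c B q0 y0 τ)) (r - rt c B q0 y0 τ) :=
    (((contDiff_psi c).differentiable (by norm_num)) _).hasDerivAt
  have h4 := (h2.comp r h1).sub ((h3.comp r h1).const_mul (qt c q0 y0 τ))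
  refine (show HasDerivAt (Sb φ c B q0 y0 τ) _ r from h4).congr_deriv ?_
  ring

theorem deriv_Sb {φ : ℝ → ℝ} (hφ : ContDiff ℝ 2 φ) (c B q0 y0 τ : ℝ) :
    deriv (Sb φ c B q0 y0 τ) = fun r => deriv φ (r - rt c B q0 y0 τ) -
      qt c q0 y0 τ * deriv (psi c) (r - rt c B q0 y0 τ) :=
  funext fun r => (hasDerivAt_Sb_r hφ c B q0 y0 τ r).deriv

theorem deriv_deriv_Sb {φ : ℝ → ℝ} (hφ : ContDiff ℝ 2 φ) (c B q0 y0 τ r : ℝ) :
    deriv (deriv (Sb φ c B q0 y0 τ)) r = deriv (deriv φ) (r - rt c B q0 y0 τ) -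
      qt c q0 y0 τ * (c ^ 2 / 4 * (psi c (r - rt c B q0 y0 τ) *
        (1 - psi c (r - rt c B q0 y0 τ))) * (1 - 2 * psi c (r - rt c B q0 y0 τ))) := by
  rw [deriv_Sb hφ]
  have h1 : HasDerivAt (fun r => r - rt c B q0 y0 τ) 1 r := (hasDerivAt_id r).sub_const _
  have hd : Differentiable ℝ (deriv φ) := by
    have : ContDiff ℝ 1 (deriv φ) := by
      have h := (contDiff_succ_iff_deriv (n := 1) (f := φ) (𝕜 := ℝ)).1 (by
        have e : (1 : WithTop ℕ∞) + 1 = 2 := by norm_num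
        rw [e]; exact hφ)
      exact h.2.2
    exact this.differentiable (by norm_num)
  have h2 : HasDerivAt (deriv φ) (deriv (deriv φ) (r - rt c B q0 y0 τ)) (r - rt c B q0 y0 τ) :=
    (hd _).hasDerivAt
  have h3 := hasDerivAt_deriv_psi c (r - rt c B q0 y0 τ)
  have h4 := (h2.comp r h1).sub ((h3.comp r h1).const_mul (qt c q0 y0 τ))
  have h5 : HasDerivAt (fun r => deriv φ (r - rt c B q0 y0 τ) -
      qt c q0 y0 τ * deriv (psi c) (r - rt c B q0 y0 τ)) (deriv (deriv φ) (r - rt c B q0 y0 τ) -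
      qt c q0 y0 τ * (c ^ 2 / 4 * (psi c (r - rt c B q0 y0 τ) *
        (1 - psi c (r - rt c B q0 y0 τ))) * (1 - 2 * psi c (r - rt c B q0 y0 τ)))) r := by
    refine (show HasDerivAt (fun r => deriv φ (r - rt c B q0 y0 τ) -
      qt c q0 y0 τ * deriv (psi c) (r - rt c B q0 y0 τ)) _ r from h4).congr_deriv ?_
    ring
  exact h5.deriv

theorem hasDerivAt_Sb_t {φ : ℝ → ℝ} (hφ : ContDiff ℝ 2 φ) {c B q0 y0 τ : ℝ} (r : ℝ)
    (hY : 0 < Yt c y0 τ) :
    HasDerivAt (fun s => Sb φ c B q0 y0 s r)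
      (-(c * (1 - B * qt c q0 y0 τ / 2)) * deriv φ (r - rt c B q0 y0 τ) -
        (-(c / (2 * Yt c y0 τ)) * qt c q0 y0 τ * psi c (r - rt c B q0 y0 τ) +
          qt c q0 y0 τ * (-(c / 2) * (psi c (r - rt c B q0 y0 τ) *
            (1 - psi c (r - rt c B q0 y0 τ))) * (-(c * (1 - B * qt c q0 y0 τ / 2)))))) τ := by
  have h1 : HasDerivAt (fun s => r - rt c B q0 y0 s) (-(c * (1 - B * qt c q0 y0 τ / 2))) τ :=
    (hasDerivAt_rt hY).const_sub r
  have h2 : HasDerivAt φ (deriv φ (r - rt c B q0 y0 τ)) (r - rt c B q0 y0 τ) :=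
    ((hφ.differentiable (by norm_num)) _).hasDerivAt
  have h3 := hasDerivAt_psi c (r - rt c B q0 y0 τ)
  have h4 := (h2.comp τ h1).sub ((hasDerivAt_qt (q0 := q0) hY).mul (h3.comp τ h1))
  refine (show HasDerivAt (fun s => Sb φ c B q0 y0 s r) _ τ from h4).congr_deriv ?_
  simp only [Function.comp]
  ring

theorem continuousOn_sqrtY {c y0 : ℝ} : ContinuousOn (fun s => √(Yt c y0 s)) (Ici 0) := by
  unfold Yt
  exact (by fun_prop : Continuous fun s : ℝ => √(y0 + c * s)).continuousOn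

theorem p1b : T_P1B := by
  intro N f φ c lam K k μ η0 θ β C hN h F δ hδ
  obtain ⟨ε1, z0, κ, G, B, q0, y0, hε1, hε0, hz0, hz1, hz2, hz3, hκ, hG, hB0, hB, hq0, hq1, hq2,
    hq3, hy1, hya, hyb, hyc, hyd, hye, hyf, hyg⟩ := constants (N := N) h F
  have hc := h.front.cpos
  have hlam := h.front.fast
  have hφ := h.front.c2
  have hy0p : 0 < y0 := by linarith
  have hsy0 : 1 ≤ √y0 := Real.one_le_sqrt.2 hy1
  have hsy0p : 0 < √y0 := by linarith
  have hYp : ∀ τ ≥ 0, 0 < Yt c y0 τ := fun τ hτ => lt_of_lt_of_le hy0p (Yt_ge hc hτ)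
  have hsle : ∀ τ ≥ 0, √y0 ≤ √(Yt c y0 τ) := fun τ hτ => Real.sqrt_le_sqrt (Yt_ge hc hτ)
  have hqpos : ∀ τ ≥ 0, 0 < qt c q0 y0 τ := by
    intro τ hτ
    have := hsle τ hτ
    have h2 : 0 < √(Yt c y0 τ) := by linarith
    unfold qt
    positivity
  have hqle : ∀ τ ≥ 0, qt c q0 y0 τ ≤ q0 := by
    intro τ hτ
    have h1 := hsle τ hτ
    have h2 : 0 < √(Yt c y0 τ) := by linarith
    unfold qt
    rw [div_le_iff₀ h2]
    exact mul_le_mul_of_nonneg_left h1 hq0.le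
  have hqy : ∀ τ ≥ 0, q0 * y0 ≤ qt c q0 y0 τ * Yt c y0 τ := by
    intro τ hτ
    have h1 := hsle τ hτ
    have h2 : 0 < √(Yt c y0 τ) := by linarith
    have h3 : qt c q0 y0 τ * Yt c y0 τ = q0 * (√y0 * √(Yt c y0 τ)) := by
      unfold qt
      have : Yt c y0 τ = √(Yt c y0 τ) * √(Yt c y0 τ) := (Real.mul_self_sqrt (hYp τ hτ).le).symm
      rw [div_mul_eq_mul_div, div_eq_iff h2.ne']
      nth_rewrite 1 [this]
      ring
    rw [h3]
    apply mul_le_mul_of_nonneg_left _ hq0.le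
    calc y0 = √y0 * √y0 := (Real.mul_self_sqrt hy0p.le).symm
      _ ≤ √y0 * √(Yt c y0 τ) := mul_le_mul_of_nonneg_left h1 hsy0p.le
  have hρ : ∀ τ ≥ 0, Yt c y0 τ / 2 ≤ rt c B q0 y0 τ := by
    intro τ hτ
    have h1 := hsle τ hτ
    have h2 : 0 < √(Yt c y0 τ) := by linarith
    have h3 : √(Yt c y0 τ) * √(Yt c y0 τ) = Yt c y0 τ := Real.mul_self_sqrt (hYp τ hτ).le
    unfold rt
    have h4 : B * (q0 * √y0) * (√(Yt c y0 τ) - √y0) ≤ B * (q0 * √(Yt c y0 τ)) * √(Yt c y0 τ) := by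
      apply mul_le_mul
      · exact mul_le_mul_of_nonneg_left (mul_le_mul_of_nonneg_left h1 hq0.le) hB0
      · linarith
      · linarith
      · positivity
    have h5 : B * (q0 * √(Yt c y0 τ)) * √(Yt c y0 τ) = B * q0 * Yt c y0 τ := by
      rw [← h3]
      have : √(√(Yt c y0 τ) * √(Yt c y0 τ)) = √(Yt c y0 τ) := by rw [h3]
      rw [this]
      ring
    have h6 : B * q0 * Yt c y0 τ ≤ 1 / 2 * Yt c y0 τ :=
      mul_le_mul_of_nonneg_right hq2 (hYp τ hτ).le
    linarith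
  have hY0 : Yt c y0 0 = y0 := by unfold Yt; ring
  have hr0 : rt c B q0 y0 0 = y0 := by unfold rt; rw [hY0]; ring
  have hqt0 : qt c q0 y0 0 = q0 := by
    unfold qt; rw [hY0]; field_simp
  -- `η`
  set η : ℝ := min δ (min (q0 / 2) (1 - φ 0)) with hη
  have hηpos : 0 < η := lt_min hδ (lt_min (by positivity) (by linarith [F.lt 0]))
  have hη1 : η ≤ q0 / 2 := (min_le_right _ _).trans (min_le_left _ _)
  have hη2 : η ≤ 1 - φ 0 := (min_le_right _ _).trans (min_le_right _ _)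
  -- `Z`
  have hZ : ∃ Z : ℝ, 0 ≤ Z ∧ ∀ z ≥ Z, C * Real.exp (-(lam * z)) ≤
      q0 * (Real.exp (-(c * z / 2)) / 2) := by
    have h1 : Tendsto (fun z : ℝ => C * Real.exp (-((lam - c / 2) * z))) atTop (𝓝 (C * 0)) := by
      apply Tendsto.const_mul
      apply Real.tendsto_exp_neg_atTop_nhds_zero.comp
      exact tendsto_id.const_mul_atTop (by linarith)
    rw [mul_zero] at h1
    have h2 := h1.eventually (gt_mem_nhds (by positivity : 0 < q0 / 2))
    rw [eventually_atTop] at h2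
    obtain ⟨b, hb⟩ := h2
    refine ⟨max b 0, le_max_right _ _, fun z hz => ?_⟩
    have h3 := (hb z ((le_max_left _ _).trans hz)).le
    have h4 : Real.exp (-(lam * z)) = Real.exp (-((lam - c / 2) * z)) * Real.exp (-(c * z / 2)) := by
      rw [← Real.exp_add]; congr 1; ring
    rw [h4]
    calc C * (Real.exp (-((lam - c / 2) * z)) * Real.exp (-(c * z / 2)))
        = (C * Real.exp (-((lam - c / 2) * z))) * Real.exp (-(c * z / 2)) := by ring
      _ ≤ (q0 / 2) * Real.exp (-(c * z / 2)) :=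
        mul_le_mul_of_nonneg_right h3 (Real.exp_pos _).le
      _ = _ := by ring
  obtain ⟨Z, hZ0, hZ⟩ := hZ
  -- `Z'`
  have hZ' : ∃ Z' : ℝ, 0 ≤ Z' ∧ 1 - η / 2 ≤ φ (-Z') := by
    have e2 : ∀ᶠ z in atTop, 1 - η / 2 < φ (-z) :=
      (h.front.left.comp tendsto_neg_atTop_atBot).eventually (lt_mem_nhds (by linarith))
    obtain ⟨z, h1, h2⟩ := (e2.and (eventually_ge_atTop 0)).exists
    exact ⟨z, h2, h1.le⟩
  obtain ⟨Z', hZ'0, hZ'⟩ := hZ'
  -- `s0`
  have hs0 : ∃ s0 : ℝ, 1 ≤ s0 ∧ ∀ s ≥ s0, qt c q0 y0 s ≤ η / 2 := by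
    have h1 : Tendsto (fun s : ℝ => qt c q0 y0 s) atTop (𝓝 0) := by
      unfold qt Yt
      apply Tendsto.div_atTop tendsto_const_nhds
      apply Real.tendsto_sqrt_atTop.comp
      apply tendsto_atTop_add_const_left
      exact tendsto_id.const_mul_atTop hc
    have h2 := h1.eventually (gt_mem_nhds (by positivity : 0 < η / 2))
    rw [eventually_atTop] at h2
    obtain ⟨b, hb⟩ := h2
    exact ⟨max b 1, le_max_right _ _, fun s hs => (hb s ((le_max_left _ _).trans hs)).le⟩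
  obtain ⟨s0, hs01, hs0⟩ := hs0
  refine ⟨η, y0 + Z, B * (q0 * √y0) * √c + Z' + 1, s0, Sb φ c B q0 y0, hηpos, min_le_left _ _,
    by linarith, ?_, hs01, ?_, ?_, ?_, ?_, ?_, ?_, ?_, ?_⟩
  · have : 0 ≤ B * (q0 * √y0) * √c := by positivity
    linarith
  · -- continuity
    have hYc : Continuous fun p : ℝ × ℝ => √(Yt c y0 p.1) := by unfold Yt; fun_prop
    have hrc : Continuous fun p : ℝ × ℝ => p.2 - rt c B q0 y0 p.1 := by unfold rt Yt; fun_prop
    have hqc : ContinuousOn (fun p : ℝ × ℝ => qt c q0 y0 p.1) (Ici 0 ×ˢ univ) := by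
      unfold qt
      apply ContinuousOn.div continuousOn_const hYc.continuousOn
      intro p hp
      have := hsle p.1 hp.1
      linarith
    unfold Sb
    exact (hφ.continuous.comp hrc).continuousOn.sub
      (hqc.mul ((contDiff_psi c).continuous.comp hrc).continuousOn)
  · intro τ _
    unfold Sb
    exact (hφ.comp (contDiff_id.sub contDiff_const)).sub
      (contDiff_const.mul ((contDiff_psi c).comp (contDiff_id.sub contDiff_const)))
  · intro τ hτ r
    exact (hasDerivAt_Sb_t hφ r (hYp τ hτ)).differentiableAt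
  · intro τ hτ r
    have h1 := (F.lt (r - rt c B q0 y0 τ)).le
    have h2 := hqpos τ hτ
    have h3 := psi_pos c (r - rt c B q0 y0 τ)
    have : 0 ≤ qt c q0 y0 τ * psi c (r - rt c B q0 y0 τ) := by positivity
    unfold Sb
    linarith
  · intro τ hτ r hr hS
    have hk := key (N := N) hN h F hε1 hε0 hz0 hz1 hz2 hz3 hκ hG hB0 hB hq1 hq2 hq3 hy1 hya hyb hyc
      hyd hye hyf hyg (Yt_ge hc hτ) (hqpos τ hτ) (hqle τ hτ) (hqy τ hτ) (hρ τ hτ) hr hS
    rw [(hasDerivAt_Sb_t hφ r (hYp τ hτ)).deriv]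
    unfold radL
    rw [deriv_deriv_Sb hφ, (hasDerivAt_Sb_r hφ c B q0 y0 τ r).deriv, deriv_psi, one_pow]
    have he := h.front.eqn (r - rt c B q0 y0 τ)
    unfold Sb
    simp only
    refine le_of_sub_nonneg (hk.trans (le_of_eq ?_))
    linear_combination (-1 : ℝ) * he
  · intro r
    unfold Sb
    rw [hr0, hqt0]
    rcases le_total (r - y0) 0 with hz | hz
    · have h1 := (F.lt (r - y0)).le
      have h2 := mul_le_mul_of_nonneg_left (half_le_psi hc hz) hq0.le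
      linarith
    · have h1 := front_antitone h.front hz
      have h2 : 0 ≤ q0 * psi c (r - y0) := mul_nonneg hq0.le (psi_pos _ _).le
      linarith
  · intro r hr
    unfold Sb
    rw [hr0, hqt0]
    have hz : Z ≤ r - y0 := by linarith
    have h1 := F.p0 (r - y0) (by linarith)
    have h2 := hZ _ hz
    have h3 := mul_le_mul_of_nonneg_left (psi_lower hc (by linarith : 0 ≤ r - y0)) hq0.le
    linarith
  · intro s hs r hr
    have hs1 : 1 ≤ s := hs01.trans hs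
    have hsp : 0 ≤ s := by linarith
    have hss : 1 ≤ √s := Real.one_le_sqrt.2 hs1
    have e1 : √(Yt c y0 s) - √y0 ≤ √c * √s := by
      have h0 : √(Yt c y0 s) ≤ √y0 + √c * √s := by
        rw [Real.sqrt_le_left (by positivity)]
        have a1 := Real.sq_sqrt hy0p.le
        have a2 := Real.sq_sqrt hc.le
        have a3 := Real.sq_sqrt hsp
        have a4 : (√y0 + √c * √s) ^ 2 = √y0 ^ 2 + 2 * (√y0 * (√c * √s)) + √c ^ 2 * √s ^ 2 := by ring
        rw [a4, a1, a2, a3]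
        unfold Yt
        have : 0 ≤ √y0 * (√c * √s) := by positivity
        linarith
      linarith
    have e2 : B * (q0 * √y0) * (√(Yt c y0 s) - √y0) ≤ B * (q0 * √y0) * (√c * √s) :=
      mul_le_mul_of_nonneg_left e1 (by positivity)
    have e3 : r - rt c B q0 y0 s ≤ -Z' := by
      unfold rt
      have e4 : Yt c y0 s = y0 + c * s := rfl
      have e5 : (B * (q0 * √y0) * √c + Z' + 1) * √s =
        B * (q0 * √y0) * (√c * √s) + (Z' + 1) * √s := by ring
      have e6 : (Z' + 1) * 1 ≤ (Z' + 1) * √s := mul_le_mul_of_nonneg_left hss (by linarith)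
      rw [e5] at hr
      nth_rewrite 1 [e4]
      linarith
    have h1 := front_antitone h.front e3
    have h2 := hs0 s hs
    have h3 := psi_lt_one c (r - rt c B q0 y0 s)
    have h4 := hqpos s hsp
    have h5 : qt c q0 y0 s * psi c (r - rt c B q0 y0 s) ≤ qt c q0 y0 s * 1 :=
      mul_le_mul_of_nonneg_left h3.le h4.le
    unfold Sb
    linarith

end Pool.Agent.H59.RD
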