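import Pool.Agent.H59.RD.BS2

/-!
# MP_609556_an: module BS1 (existence for the phase plane equation)
-/

open MeasureTheory Set Filter Topology Metric
open scoped NNReal

namespace Pool.Agent.H59.RD

open Pool.Agent.H91.RD

/-- the Lipschitz approximation of `√(2 y⁺)` -/
noncomputable def gE (ε y : ℝ) : ℝ := √(2 * max y 0 + ε ^ 2) - ε

theorem gE_mono {ε : ℝ} : Monotone (gE ε) := by
  intro a b hab
  unfold gE
  have : √(2 * max a 0 + ε ^ 2) ≤ √(2 * max b 0 + ε ^ 2) := by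
    apply Real.sqrt_le_sqrt
    have : max a 0 ≤ max b 0 := max_le_max_right _ hab
    linarith
  linarith

theorem gE_le {ε : ℝ} (hε : 0 < ε) (y : ℝ) : gE ε y ≤ √(2 * max y 0) := by
  unfold gE
  have h0 : 0 ≤ 2 * max y 0 := by positivity
  have : √(2 * max y 0 + ε ^ 2) ≤ √(2 * max y 0) + ε := by
    rw [Real.sqrt_le_left (by positivity)]
    have := Real.sq_sqrt h0
    nlinarith [Real.sqrt_nonneg (2 * max y 0)]
  linarith

theorem le_gE {ε : ℝ} (_hε : 0 < ε) (y : ℝ) : √(2 * max y 0) - ε ≤ gE ε y := by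
  unfold gE
  have : √(2 * max y 0) ≤ √(2 * max y 0 + ε ^ 2) := Real.sqrt_le_sqrt (by nlinarith)
  linarith

theorem gE_nonneg {ε : ℝ} (hε : 0 < ε) (y : ℝ) : 0 ≤ gE ε y := by
  unfold gE
  have : ε ≤ √(2 * max y 0 + ε ^ 2) := by
    apply Real.le_sqrt_of_sq_le
    have : 0 ≤ max y 0 := le_max_right _ _
    linarith
  linarith

theorem gE_lip {ε : ℝ} (hε : 0 < ε) (a b : ℝ) : |gE ε a - gE ε b| ≤ 1 / ε * |a - b| := by
  unfold gE
  set A := 2 * max a 0 + ε ^ 2 with hA
  set B := 2 * max b 0 + ε ^ 2 with hB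
  have ha0 : 0 ≤ max a 0 := le_max_right _ _
  have hb0 : 0 ≤ max b 0 := le_max_right _ _
  have hA0 : 0 ≤ A := by positivity
  have hB0 : 0 ≤ B := by positivity
  have h1 : ε ≤ √A := Real.le_sqrt_of_sq_le (by rw [hA]; linarith)
  have h2 : ε ≤ √B := Real.le_sqrt_of_sq_le (by rw [hB]; linarith)
  have h3 : (√A - √B) * (√A + √B) = A - B := by
    have := Real.sq_sqrt hA0
    have := Real.sq_sqrt hB0
    nlinarith
  have h4 : |√A - √B| * (√A + √B) = |A - B| := by
    rw [← h3, abs_mul, abs_of_nonneg (by positivity : (0:ℝ) ≤ √A + √B)]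
  have h5 : |A - B| ≤ 2 * |a - b| := by
    have : A - B = 2 * (max a 0 - max b 0) := by rw [hA, hB]; ring
    rw [this, abs_mul, abs_two]
    have := abs_max_sub_max_le_abs a b 0
    linarith
  have h6 : |√A - √B| * (2 * ε) ≤ 2 * |a - b| := by
    calc |√A - √B| * (2 * ε) ≤ |√A - √B| * (√A + √B) :=
          mul_le_mul_of_nonneg_left (by linarith) (abs_nonneg _)
      _ ≤ _ := by rw [h4]; exact h5
  have h7 : √A - ε - (√B - ε) = √A - √B := by ring
  rw [h7, div_mul_eq_mul_div, one_mul, le_div_iff₀ hε]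
  linarith

theorem approx_exists {f : ℝ → ℝ} {K c : ℝ} (hf : Lip f K) (hc : 0 ≤ c) {ε : ℝ} (hε : 0 < ε) :
    ∃ y : ℝ → ℝ, y 0 = 0 ∧ ContinuousOn y (Icc 0 1) ∧
      ∀ τ ∈ Ioo (0 : ℝ) 1, HasDerivAt y (f (1 - τ) - c * gE ε (y τ)) τ := by
  have hK := hf.K0
  set a : ℝ := 2 * K + 8 * c ^ 2 with ha
  have ha0 : 0 < a := by positivity
  have hfc : Continuous f := by
    have : LipschitzWith (Real.toNNReal K) f := LipschitzWith.of_dist_le_mul (fun x y => by
      rw [Real.dist_eq, Real.dist_eq, Real.coe_toNNReal K hK.le]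
      exact hf.lip x y)
    exact this.continuous
  have hPL : IsPicardLindelof (fun τ y => f (1 - τ) - c * gE ε y)
      (⟨0, by norm_num⟩ : Icc (0 : ℝ) 1) (0 : ℝ) (Real.toNNReal a) 0 (Real.toNNReal a)
      (Real.toNNReal (c * (1 / ε))) := by
    refine ⟨?_, ?_, ?_, ?_⟩
    · intro t _
      apply LipschitzWith.lipschitzOnWith
      apply LipschitzWith.of_dist_le_mul
      intro x y
      rw [Real.dist_eq, Real.dist_eq, Real.coe_toNNReal _ (by positivity)]
      have h1 : f (1 - t) - c * gE ε x - (f (1 - t) - c * gE ε y) = c * (gE ε y - gE ε x) := by ring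
      rw [h1, abs_mul, abs_of_nonneg hc, mul_assoc]
      apply mul_le_mul_of_nonneg_left _ hc
      rw [abs_sub_comm]
      exact gE_lip hε x y
    · intro x _
      apply Continuous.continuousOn
      exact (hfc.comp (by fun_prop)).sub continuous_const
    · intro t _ x hx
      rw [mem_closedBall, dist_zero_right, Real.norm_eq_abs, Real.coe_toNNReal _ ha0.le] at hx
      rw [Real.norm_eq_abs, Real.coe_toNNReal _ ha0.le]
      have h1 := Lip.abs_le hf (1 - t)
      have h2 : gE ε x ≤ √(2 * a) := (gE_le hε x).trans (by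
        apply Real.sqrt_le_sqrt
        have : max x 0 ≤ a := max_le ((le_abs_self x).trans hx) ha0.le
        linarith)
      have h3 : c * √(2 * a) ≤ a / 2 := by
        have h4 : (c * √(2 * a)) ^ 2 ≤ (a / 2) ^ 2 := by
          rw [mul_pow, Real.sq_sqrt (by positivity)]
          nlinarith [sq_nonneg c]
        exact le_of_sq_le_sq h4 (by positivity) |> fun h => h
      have h5 : c * gE ε x ≤ a / 2 := (mul_le_mul_of_nonneg_left h2 hc).trans h3
      have h6 : 0 ≤ c * gE ε x := mul_nonneg hc (gE_nonneg hε x)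
      rw [abs_le] at h1 ⊢
      constructor
      · nlinarith [sq_nonneg c]
      · nlinarith [sq_nonneg c]
    · simp
  obtain ⟨y, hy0, hy⟩ := hPL.exists_eq_forall_mem_Icc_hasDerivWithinAt₀
  refine ⟨y, by simpa using hy0, fun t ht => (hy t ht).continuousWithinAt, fun t ht => ?_⟩
  exact (hy t ⟨ht.1.le, ht.2.le⟩).hasDerivAt (Icc_mem_nhds ht.1 ht.2)

theorem approx_dist {f : ℝ → ℝ} {c : ℝ} (hc : 0 ≤ c) {ε δ : ℝ} (hε : 0 < ε) (hδ : 0 < δ)
    {y z : ℝ → ℝ} (hy0 : y 0 = 0) (hyc : ContinuousOn y (Icc 0 1))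
    (hy : ∀ τ ∈ Ioo (0 : ℝ) 1, HasDerivAt y (f (1 - τ) - c * gE ε (y τ)) τ)
    (hz0 : z 0 = 0) (hzc : ContinuousOn z (Icc 0 1))
    (hz : ∀ τ ∈ Ioo (0 : ℝ) 1, HasDerivAt z (f (1 - τ) - c * gE δ (z τ)) τ) :
    ∀ τ ∈ Icc (0 : ℝ) 1, y τ - z τ ≤ c * (ε + δ) := by
  have key := nonneg_of_deriv (a := 0) (b := 1) (D := fun τ => c * (ε + δ) * τ - (y τ - z τ))
    (D' := fun τ => c * (ε + δ) * 1 -
      ((f (1 - τ) - c * gE ε (y τ)) - (f (1 - τ) - c * gE δ (z τ))))
    ((by fun_prop : Continuous fun τ : ℝ => c * (ε + δ) * τ).continuousOn.sub (hyc.sub hzc))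
    (fun τ hτ => ((hasDerivAt_id τ).const_mul _).sub ((hy τ hτ).sub (hz τ hτ)))
    (by simp [hy0, hz0])
    (by
      intro τ hτ hlt
      have h1 : z τ ≤ y τ := by
        have : 0 ≤ c * (ε + δ) * τ := mul_nonneg (by positivity) hτ.1.le
        have : c * (ε + δ) * τ - (y τ - z τ) < 0 := hlt
        linarith
      have h2 := gE_mono (ε := ε) h1
      have h3 := le_gE hε (z τ)
      have h4 := gE_le hδ (z τ)
      have h5 : gE δ (z τ) - gE ε (y τ) ≤ ε := by linarith
      have h6 := mul_le_mul_of_nonneg_left h5 hc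
      have h7 : 0 ≤ c * δ := by positivity
      nlinarith)
  intro τ hτ
  have h1 := key τ hτ
  have h2 : c * (ε + δ) * τ ≤ c * (ε + δ) := by
    have : 0 ≤ c * (ε + δ) := by positivity
    nlinarith [hτ.2]
  linarith

theorem bs1 : T_BS1 := by
  intro f K c hf hc
  have hε : ∀ n : ℕ, (0 : ℝ) < 1 / ((n : ℝ) + 1) := fun n => by positivity
  choose y hy0 hyc hy using fun n : ℕ => approx_exists hf hc (hε n)
  have hd : ∀ n m : ℕ, ∀ τ ∈ Icc (0 : ℝ) 1,
      |y n τ - y m τ| ≤ c * (1 / ((n : ℝ) + 1) + 1 / ((m : ℝ) + 1)) := by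
    intro n m τ hτ
    rw [abs_le]
    have h1 := approx_dist hc (hε n) (hε m) (hy0 n) (hyc n) (hy n) (hy0 m) (hyc m) (hy m) τ hτ
    have h2 := approx_dist hc (hε m) (hε n) (hy0 m) (hyc m) (hy m) (hy0 n) (hyc n) (hy n) τ hτ
    constructor <;> linarith
  have hlim0 : Tendsto (fun n : ℕ => 1 / ((n : ℝ) + 1)) atTop (𝓝 0) :=
    tendsto_one_div_add_atTop_nhds_zero_nat
  have hex : ∀ τ : ℝ, ∃ l : ℝ, τ ∈ Icc (0 : ℝ) 1 → Tendsto (fun n => y n τ) atTop (𝓝 l) := by
    intro τ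
    by_cases hτ : τ ∈ Icc (0 : ℝ) 1
    · have : CauchySeq (fun n => y n τ) := by
        rw [Metric.cauchySeq_iff']
        intro e he
        have h1 : Tendsto (fun n : ℕ => c * (1 / ((n : ℝ) + 1) + 1 / ((n : ℝ) + 1))) atTop (𝓝 (c * (0 + 0))) :=
          (hlim0.add hlim0).const_mul c
        rw [add_zero, mul_zero] at h1
        obtain ⟨N, hN⟩ := (h1.eventually (gt_mem_nhds he)).exists
        refine ⟨N, fun n hn => ?_⟩
        rw [Real.dist_eq]
        refine lt_of_le_of_lt (hd n N τ hτ) (lt_of_le_of_lt ?_ hN)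
        have : 1 / ((n : ℝ) + 1) ≤ 1 / ((N : ℝ) + 1) := by
          apply one_div_le_one_div_of_le (by positivity)
          have : (N : ℝ) ≤ n := by exact_mod_cast hn
          linarith
        gcongr
      obtain ⟨l, hl⟩ := cauchySeq_tendsto_of_complete this
      exact ⟨l, fun _ => hl⟩
    · exact ⟨0, fun h => absurd h hτ⟩
  choose Y hY using hex
  have hdY : ∀ n : ℕ, ∀ τ ∈ Icc (0 : ℝ) 1, |y n τ - Y τ| ≤ c * (1 / ((n : ℝ) + 1)) := by
    intro n τ hτ
    have h1 : Tendsto (fun m => |y n τ - y m τ|) atTop (𝓝 |y n τ - Y τ|) :=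
      ((tendsto_const_nhds).sub (hY τ hτ)).abs
    have h2 : Tendsto (fun m : ℕ => c * (1 / ((n : ℝ) + 1) + 1 / ((m : ℝ) + 1))) atTop
        (𝓝 (c * (1 / ((n : ℝ) + 1) + 0))) := ((tendsto_const_nhds).add hlim0).const_mul c
    rw [add_zero] at h2
    exact le_of_tendsto_of_tendsto' h1 h2 (fun m => hd n m τ hτ)
  have hlimc : Tendsto (fun n : ℕ => c * (1 / ((n : ℝ) + 1))) atTop (𝓝 0) := by
    simpa using hlim0.const_mul c
  have hunif : TendstoUniformlyOn y Y atTop (Icc 0 1) := by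
    rw [Metric.tendstoUniformlyOn_iff]
    intro e he
    filter_upwards [hlimc.eventually (gt_mem_nhds he)] with n hn τ hτ
    rw [dist_comm, Real.dist_eq]
    exact lt_of_le_of_lt (hdY n τ hτ) hn
  have hYc : ContinuousOn Y (Icc 0 1) := hunif.continuousOn (Frequently.of_forall hyc)
  refine ⟨Y, ?_, hYc, ?_⟩
  · have h0 := hY 0 (by norm_num)
    simp only [hy0] at h0
    exact tendsto_nhds_unique h0 tendsto_const_nhds |>.symm ▸ rfl
  · intro τ hτ
    refine hasDerivAt_of_tendstoUniformlyOn (f := y)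
      (f' := fun n τ => f (1 - τ) - c * gE (1 / ((n : ℝ) + 1)) (y n τ)) (s := Ioo 0 1)
      (g' := fun τ => f (1 - τ) - c * √(2 * max (Y τ) 0)) (l := atTop) isOpen_Ioo ?_
      (Eventually.of_forall fun n x hx => hy n x hx)
      (fun x hx => hY x ⟨hx.1.le, hx.2.le⟩) hτ
    rw [Metric.tendstoUniformlyOn_iff]
    intro e he
    have h1 : Tendsto (fun n : ℕ => c * (1 / ((n : ℝ) + 1) + √(2 * (c * (1 / ((n : ℝ) + 1)))))) atTop
        (𝓝 (c * (0 + √(2 * 0)))) :=
      (hlim0.add ((Real.continuous_sqrt.tendsto _).comp (hlimc.const_mul 2))).const_mul c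
    rw [mul_zero, Real.sqrt_zero, add_zero, mul_zero] at h1
    filter_upwards [h1.eventually (gt_mem_nhds he)] with n hn x hx
    rw [Real.dist_eq]
    refine lt_of_le_of_lt ?_ hn
    have hx' : x ∈ Icc (0 : ℝ) 1 := ⟨hx.1.le, hx.2.le⟩
    have h2 := hdY n x hx'
    have h3 := gE_le (hε n) (y n x)
    have h4 := le_gE (hε n) (y n x)
    have hsq : ∀ a b : ℝ, √(2 * max a 0) ≤ √(2 * max b 0) + √(2 * |a - b|) := by
      intro a b
      rw [Real.sqrt_le_left (by positivity)]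
      have e1 := Real.sq_sqrt (by positivity : 0 ≤ 2 * max b 0)
      have e2 := Real.sq_sqrt (by positivity : 0 ≤ 2 * |a - b|)
      have e3 : max a 0 ≤ max b 0 + |a - b| := by
        have := abs_max_sub_max_le_abs a b 0
        have := (_root_.abs_le.1 this).2
        linarith
      nlinarith [Real.sqrt_nonneg (2 * max b 0), Real.sqrt_nonneg (2 * |a - b|),
        mul_nonneg (Real.sqrt_nonneg (2 * max b 0)) (Real.sqrt_nonneg (2 * |a - b|))]
    have h5 := hsq (y n x) (Y x)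
    have h6 := hsq (Y x) (y n x)
    rw [abs_sub_comm (Y x) (y n x)] at h6
    have h7 : √(2 * |y n x - Y x|) ≤ √(2 * (c * (1 / ((n : ℝ) + 1)))) := by
      apply Real.sqrt_le_sqrt
      linarith
    have h8 : f (1 - x) - c * √(2 * max (Y x) 0) - (f (1 - x) - c * gE (1 / ((n : ℝ) + 1)) (y n x))
        = c * (gE (1 / ((n : ℝ) + 1)) (y n x) - √(2 * max (Y x) 0)) := by ring
    rw [h8, abs_mul, abs_of_nonneg hc]
    apply mul_le_mul_of_nonneg_left _ hc
    have hn0 := hε n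
    rw [abs_le]
    constructor <;> linarith

end Pool.Agent.H59.RD
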