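import Pool.Agent.H91.RD.Targets

/-!
# MP_609556_an: module BS2 (comparison for the phase plane equation)
-/

open MeasureTheory Set Filter Topology Metric

namespace Pool.Agent.H59.RD

open Pool.Agent.H91.RD

/-- one-sided barrier lemma for functions of one variable -/
theorem nonneg_of_deriv {D D' : ℝ → ℝ} {a b : ℝ}
    (hc : ContinuousOn D (Icc a b)) (hd : ∀ τ ∈ Ioo a b, HasDerivAt D (D' τ) τ)
    (h0 : 0 ≤ D a) (h : ∀ τ ∈ Ioo a b, D τ < 0 → 0 ≤ D' τ) :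
    ∀ τ ∈ Icc a b, 0 ≤ D τ := by
  intro τ1 hτ1
  by_contra hneg
  push Not at hneg
  -- the last time with `D ≥ 0`
  have hab : a ≤ b := hτ1.1.trans hτ1.2
  set A : Set ℝ := Icc a τ1 ∩ D ⁻¹' Ici 0 with hA
  have hcA : ContinuousOn D (Icc a τ1) := hc.mono (Icc_subset_Icc_right hτ1.2)
  have hclosed : IsClosed A := hcA.preimage_isClosed_of_isClosed isClosed_Icc isClosed_Ici
  have hcomp : IsCompact A := isCompact_Icc.of_isClosed_subset hclosed inter_subset_left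
  have hne : A.Nonempty := ⟨a, ⟨le_refl a, hτ1.1⟩, h0⟩
  obtain ⟨τ0, ⟨hτ0, hD0⟩, hmax⟩ := hcomp.exists_isGreatest hne
  have hlt : τ0 < τ1 := by
    rcases lt_or_eq_of_le hτ0.2 with h | h
    · exact h
    · rw [h] at hD0
      exact absurd hD0 (not_le.2 hneg)
  have hnegI : ∀ τ ∈ Ioo τ0 τ1, D τ < 0 := by
    intro τ hτ
    by_contra hh
    push Not at hh
    have : τ ∈ A := ⟨⟨hτ0.1.trans hτ.1.le, hτ.2.le⟩, hh⟩
    exact absurd (hmax this) (not_le.2 hτ.1)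
  have hmono : MonotoneOn D (Icc τ0 τ1) := by
    apply monotoneOn_of_deriv_nonneg (convex_Icc _ _)
    · exact hc.mono (Icc_subset_Icc hτ0.1 hτ1.2)
    · rw [interior_Icc]
      intro x hx
      exact (hd x ⟨lt_of_le_of_lt hτ0.1 hx.1, lt_of_lt_of_le hx.2 hτ1.2⟩).differentiableAt.differentiableWithinAt
    · rw [interior_Icc]
      intro x hx
      rw [(hd x ⟨lt_of_le_of_lt hτ0.1 hx.1, lt_of_lt_of_le hx.2 hτ1.2⟩).deriv]
      exact h x ⟨lt_of_le_of_lt hτ0.1 hx.1, lt_of_lt_of_le hx.2 hτ1.2⟩ (hnegI x hx)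
  have := hmono (left_mem_Icc.2 hlt.le) (right_mem_Icc.2 hlt.le) hlt.le
  have h2 : (0 : ℝ) ≤ D τ0 := hD0
  linarith

/-- bound of a function whose derivative is bounded above -/
theorem le_of_deriv_le {D D' : ℝ → ℝ} {a b C : ℝ}
    (hc : ContinuousOn D (Icc a b)) (hd : ∀ τ ∈ Ioo a b, HasDerivAt D (D' τ) τ)
    (h : ∀ τ ∈ Ioo a b, D' τ ≤ C) :
    ∀ τ ∈ Icc a b, D τ ≤ D a + C * (τ - a) := by
  have hanti : AntitoneOn (fun τ => D τ - C * (τ - a)) (Icc a b) := by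
    apply antitoneOn_of_deriv_nonpos (convex_Icc _ _)
    · exact hc.sub (by fun_prop)
    · rw [interior_Icc]
      intro x hx
      exact ((hd x hx).differentiableAt.sub (by fun_prop)).differentiableWithinAt
    · rw [interior_Icc]
      intro x hx
      have h1 : HasDerivAt (fun τ => D τ - C * (τ - a)) (D' x - C * 1) x :=
        (hd x hx).sub (((hasDerivAt_id x).sub_const a).const_mul C)
      rw [h1.deriv]
      linarith [h x hx]
  intro τ hτ
  have := hanti (left_mem_Icc.2 (hτ.1.trans hτ.2)) hτ hτ.1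
  simp only [sub_self, mul_zero, sub_zero] at this
  linarith

theorem Lip.le_K {f : ℝ → ℝ} {K : ℝ} (h : Lip f K) (s : ℝ) (h0 : 0 ≤ s) (h1 : s ≤ 1) :
    |f s| ≤ K := by
  have := h.lip s 0
  rw [h.f0, sub_zero, sub_zero, abs_of_nonneg h0] at this
  have hK := h.K0
  nlinarith

theorem Lip.abs_le {f : ℝ → ℝ} {K : ℝ} (h : Lip f K) (s : ℝ) : |f s| ≤ K := by
  by_cases hs : s ∈ Icc (0 : ℝ) 1
  · exact Lip.le_K h s hs.1 hs.2
  · rw [h.out s hs, abs_zero]
    exact h.K0.le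

theorem IsY.le_K {f : ℝ → ℝ} {K c : ℝ} {y : ℝ → ℝ} (h : Lip f K) (hc : 0 ≤ c) (hy : IsY f c y) :
    ∀ τ ∈ Icc (0 : ℝ) 1, y τ ≤ K * τ := by
  intro τ hτ
  have := le_of_deriv_le (C := K) hy.2.1 hy.2.2 (fun s _ => by
    have h1 := (_root_.abs_le.1 (Lip.abs_le h (1 - s))).2
    have h2 : 0 ≤ c * √(2 * max (y s) 0) := mul_nonneg hc (Real.sqrt_nonneg _)
    linarith) τ hτ
  rw [hy.1] at this
  linarith

theorem bs2 : T_BS2 := by
  intro f K hf c1 c2 y1 y2 hc1 hc12 h1 h2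
  have hK := hf.K0
  have hpos : ∀ τ ∈ Icc (0 : ℝ) 1, 0 ≤ y1 τ - y2 τ := by
    apply nonneg_of_deriv (D := fun τ => y1 τ - y2 τ)
      (D' := fun τ => (f (1 - τ) - c1 * √(2 * max (y1 τ) 0)) - (f (1 - τ) - c2 * √(2 * max (y2 τ) 0)))
      (h1.2.1.sub h2.2.1) (fun τ hτ => (h1.2.2 τ hτ).sub (h2.2.2 τ hτ))
    · rw [h1.1, h2.1]; norm_num
    · intro τ _ hlt
      have h3 : √(2 * max (y1 τ) 0) ≤ √(2 * max (y2 τ) 0) := by
        apply Real.sqrt_le_sqrt
        have : max (y1 τ) 0 ≤ max (y2 τ) 0 := max_le_max_right _ (by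
          have : y1 τ - y2 τ < 0 := hlt
          linarith)
        linarith
      have h4 : c1 * √(2 * max (y1 τ) 0) ≤ c2 * √(2 * max (y2 τ) 0) :=
        mul_le_mul hc12 h3 (Real.sqrt_nonneg _) (hc1.trans hc12)
      linarith
  intro τ hτ
  refine ⟨by linarith [hpos τ hτ], ?_⟩
  have := le_of_deriv_le (D := fun τ => y1 τ - y2 τ)
      (D' := fun τ => (f (1 - τ) - c1 * √(2 * max (y1 τ) 0)) - (f (1 - τ) - c2 * √(2 * max (y2 τ) 0)))
      (C := (c2 - c1) * √(2 * K))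
      (h1.2.1.sub h2.2.1) (fun τ hτ => (h1.2.2 τ hτ).sub (h2.2.2 τ hτ)) (by
        intro s hs
        have hs' : s ∈ Icc (0 : ℝ) 1 := ⟨hs.1.le, hs.2.le⟩
        have h3 : √(2 * max (y2 s) 0) ≤ √(2 * max (y1 s) 0) := by
          apply Real.sqrt_le_sqrt
          have : max (y2 s) 0 ≤ max (y1 s) 0 := max_le_max_right _ (by linarith [hpos s hs'])
          linarith
        have h5 : √(2 * max (y2 s) 0) ≤ √(2 * K) := by
          apply Real.sqrt_le_sqrt
          have h6 := IsY.le_K hf (hc1.trans hc12) h2 s hs'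
          have : max (y2 s) 0 ≤ K := max_le (by nlinarith [hs.2]) hK.le
          linarith
        have h7 := mul_le_mul_of_nonneg_left h3 hc1
        have h8 := mul_le_mul_of_nonneg_left h5 (sub_nonneg.2 hc12)
        linarith) τ hτ
  simp only [h1.1, h2.1, sub_self, zero_add, sub_zero] at this
  have h9 : 0 ≤ (c2 - c1) * √(2 * K) := mul_nonneg (sub_nonneg.2 hc12) (Real.sqrt_nonneg _)
  have h10 : (c2 - c1) * √(2 * K) * τ ≤ (c2 - c1) * √(2 * K) := by
    nlinarith [hτ.2]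
  linarith

end Pool.Agent.H59.RD
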