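import Mathlib
import Pool.Agent.H82.RD.Targets
import Pool.Agent.H82.RD.Basic

/-!
# DXO: powers of `1 + Q` belong to the class `Xp`
-/

set_option autoImplicit false

namespace Pool.Agent.H59.RD

open Pool.Agent.H82.RD

theorem pf_DXO : T_DXO := by
  intro R _ ϖ E Jm K v y z E₀ Q hz hQ
  refine ⟨fun c J => if c = 0 then E₀ * Q ^ J else 0, ?_, ?_⟩
  · intro c J
    by_cases hc : c = 0
    · simp only [if_pos hc, Nat.sub_zero]
      exact Dvd.dvd.mul_left (pow_dvd_pow_of_dvd hQ J) _
    · simp [hc]
  · intro k
    have hS : Sx v 0 = {0} := by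
      ext a
      rw [mem_Sx, Finset.mem_singleton]
      constructor
      · intro h
        funext i
        have := Finset.single_le_sum (f := a) (fun _ _ => Nat.zero_le _) (Finset.mem_univ i)
        have h2 : a i ≤ 0 := le_trans this h
        exact Nat.le_zero.1 h2
      · rintro rfl
        simp
    rw [hS, Finset.sum_singleton]
    have h1 : (1 + Q) ^ z k = ∑ J ∈ Finset.range Jm, Q ^ J * ((z k).choose J : R) := by
      rw [add_comm, add_pow]
      simp only [one_pow, mul_one]
      apply Finset.sum_subset
      · intro J hJ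
        rw [Finset.mem_range] at *
        have := hz k
        omega
      · intro J _ hJ
        rw [Finset.mem_range, not_lt] at hJ
        rw [Nat.choose_eq_zero_of_lt (by omega)]
        simp
    have h2 : E₀ * (1 + Q) ^ z k - ∑ J ∈ Finset.range Jm,
        (if (0 : Fin v → ℕ) = 0 then E₀ * Q ^ J else 0) *
          ((∏ j, y k j ^ (0 : Fin v → ℕ) j) * ((z k).choose J : R)) = 0 := by
      rw [h1, Finset.mul_sum, sub_eq_zero]
      apply Finset.sum_congr rfl
      intro J _
      simp
      ring
    rw [h2]
    exact dvd_zero _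

end Pool.Agent.H59.RD
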