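import Pool.Agent.H91.RD.Targets

/-!
# MP_609556_an: module P1B (sub-barrier): the logistic function and the three regions
-/

open MeasureTheory Set Filter Topology Metric

namespace Pool.Agent.H59.RD

open Pool.Agent.H91.RD

/-- the logistic function `1 / (1 + e^{cz/2})` -/
noncomputable def psi (c z : ℝ) : ℝ := 1 / (1 + Real.exp (c * z / 2))

theorem psi_pos (c z : ℝ) : 0 < psi c z := by unfold psi; positivity

theorem psi_lt_one (c z : ℝ) : psi c z < 1 := by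
  unfold psi
  rw [div_lt_one (by positivity)]
  linarith [Real.exp_pos (c * z / 2)]

theorem psi_le_half {c z : ℝ} (hc : 0 < c) (hz : 0 ≤ z) : psi c z ≤ 1 / 2 := by
  unfold psi
  apply one_div_le_one_div_of_le (by norm_num)
  have : 1 ≤ Real.exp (c * z / 2) := Real.one_le_exp (by positivity)
  linarith

theorem half_le_psi {c z : ℝ} (hc : 0 < c) (hz : z ≤ 0) : 1 / 2 ≤ psi c z := by
  unfold psi
  apply one_div_le_one_div_of_le (by positivity)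
  have : Real.exp (c * z / 2) ≤ 1 := Real.exp_le_one_iff.2 (by nlinarith)
  linarith

theorem psi_lower {c z : ℝ} (hc : 0 < c) (hz : 0 ≤ z) :
    Real.exp (-(c * z / 2)) / 2 ≤ psi c z := by
  unfold psi
  have h1 : 1 ≤ Real.exp (c * z / 2) := Real.one_le_exp (by positivity)
  rw [Real.exp_neg, div_le_div_iff₀ (by norm_num) (by positivity), inv_mul_le_iff₀ (by positivity)]
  linarith

theorem psi_anti {c : ℝ} (hc : 0 < c) {a b : ℝ} (h : a ≤ b) : psi c b ≤ psi c a := by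
  unfold psi
  apply one_div_le_one_div_of_le (by positivity)
  have : Real.exp (c * a / 2) ≤ Real.exp (c * b / 2) := Real.exp_le_exp.2 (by nlinarith)
  linarith

theorem hasDerivAt_psi (c z : ℝ) :
    HasDerivAt (psi c) (-(c / 2) * (psi c z * (1 - psi c z))) z := by
  have h1 : HasDerivAt (fun z : ℝ => 1 + Real.exp (c * z / 2)) (Real.exp (c * z / 2) * (c / 2)) z := by
    have h2 : HasDerivAt (fun z : ℝ => c * z / 2) (c / 2) z := by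
      have := ((hasDerivAt_id z).const_mul c).div_const 2
      simpa using this
    exact (h2.exp).const_add 1
  have h3 : HasDerivAt (fun z : ℝ => (1 + Real.exp (c * z / 2))⁻¹)
      (-(Real.exp (c * z / 2) * (c / 2)) / (1 + Real.exp (c * z / 2)) ^ 2) z :=
    h1.inv (by positivity)
  have h4 : psi c = fun z : ℝ => (1 + Real.exp (c * z / 2))⁻¹ := by
    funext z; unfold psi; rw [one_div]
  rw [h4]
  convert h3 using 1
  have : (1 + Real.exp (c * z / 2)) ≠ 0 := by positivity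
  field_simp
  ring

theorem deriv_psi (c : ℝ) : deriv (psi c) = fun z => -(c / 2) * (psi c z * (1 - psi c z)) :=
  funext fun z => (hasDerivAt_psi c z).deriv

theorem hasDerivAt_deriv_psi (c z : ℝ) :
    HasDerivAt (deriv (psi c)) (c ^ 2 / 4 * (psi c z * (1 - psi c z)) * (1 - 2 * psi c z)) z := by
  rw [deriv_psi]
  have h := hasDerivAt_psi c z
  have h1 : HasDerivAt (fun z => -(c / 2) * (psi c z * (1 - psi c z)))
      (-(c / 2) * ((-(c / 2) * (psi c z * (1 - psi c z))) * (1 - psi c z) +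
        psi c z * (-(-(c / 2) * (psi c z * (1 - psi c z)))))) z :=
    (h.mul (h.const_sub 1)).const_mul (-(c / 2))
  refine h1.congr_deriv ?_
  ring

theorem contDiff_psi (c : ℝ) : ContDiff ℝ 2 (psi c) := by
  have h4 : psi c = fun z : ℝ => (1 + Real.exp (c * z / 2))⁻¹ := by
    funext z; unfold psi; rw [one_div]
  rw [h4]
  apply ContDiff.inv
  · fun_prop
  · intro z; positivity

theorem tendsto_psi {c : ℝ} (hc : 0 < c) : Tendsto (psi c) atTop (𝓝 0) := by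
  have h4 : psi c = fun z : ℝ => (1 + Real.exp (c * z / 2))⁻¹ := by
    funext z; unfold psi; rw [one_div]
  rw [h4]
  apply Tendsto.inv_tendsto_atTop
  apply tendsto_atTop_add_const_left
  apply Real.tendsto_exp_atTop.comp
  have : Tendsto (fun z : ℝ => (c / 2) * z) atTop atTop :=
    tendsto_id.const_mul_atTop (by positivity)
  exact this.congr (fun z => by ring)

/-! ### the three regions -/

theorem bad_bound {N : ℕ} (hN : 1 ≤ N) {r P1 P2 D : ℝ} (hr : 1 ≤ r) (h1 : |P1| ≤ D)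
    (h2 : |P2| ≤ D) :
    -(D * (N + 1) / r) ≤ -P2 * (1 / r ^ 2) + P1 * (((N : ℝ) - 1) / r + 1 / r ^ 3) := by
  have hr0 : 0 < r := by linarith
  have hN' : (1 : ℝ) ≤ N := by exact_mod_cast hN
  have hD : 0 ≤ D := (abs_nonneg _).trans h1
  have hA : 0 ≤ ((N : ℝ) - 1) / r + 1 / r ^ 3 := by
    have : 0 ≤ ((N : ℝ) - 1) / r := div_nonneg (by linarith) hr0.le
    positivity
  have hw : 0 ≤ 1 / r ^ 2 := by positivity
  have e1 : -P2 * (1 / r ^ 2) ≥ -(D * (1 / r ^ 2)) := by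
    have := (abs_le.1 h2).2
    nlinarith
  have e2 : P1 * (((N : ℝ) - 1) / r + 1 / r ^ 3) ≥ -(D * (((N : ℝ) - 1) / r + 1 / r ^ 3)) := by
    have := (abs_le.1 h1).1
    nlinarith
  have e3 : 1 / r ^ 2 ≤ 1 / r := by
    apply one_div_le_one_div_of_le hr0
    nlinarith
  have e4 : 1 / r ^ 3 ≤ 1 / r := by
    apply one_div_le_one_div_of_le hr0
    have : r * 1 ≤ r * r ^ 2 := mul_le_mul_of_nonneg_left (by nlinarith) hr0.le
    calc r = r * 1 := by ring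
      _ ≤ r * r ^ 2 := this
      _ = r ^ 3 := by ring
  have e5 : D * (N + 1) / r = D * (((N : ℝ) - 1) / r + 1 / r + 1 / r) := by
    field_simp
    ring
  rw [e5]
  have e6 : D * (1 / r ^ 2) + D * (((N : ℝ) - 1) / r + 1 / r ^ 3) ≤
      D * (((N : ℝ) - 1) / r + 1 / r + 1 / r) := by
    rw [← mul_add]
    apply mul_le_mul_of_nonneg_left _ hD
    linarith
  linarith

theorem regionR {c ε1 k q ψ y w A bad e B dF P X : ℝ} (hc : 0 < c) (hψ0 : 0 < ψ) (hψ1 : ψ ≤ 1 / 2)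
    (hψz : c ^ 2 / 4 * ψ ≤ ε1 / 2) (hψe : e / 2 ≤ ψ) (hq : 0 < q) (hB : 0 ≤ B)
    (hqB : c ^ 2 / 4 * (B * q) ≤ ε1 / 4) (hy : c / (2 * y) ≤ ε1 / 4)
    (hε : 2 * ε1 = c ^ 2 / 4 - k) (hε0 : 0 < ε1) (hw0 : 0 ≤ w) (hw1 : w ≤ 1) (hA : 0 ≤ A)
    (hF : -(k * (q * ψ)) ≤ dF) (hP : 0 ≤ P) (hX : -bad ≤ X) (hbad : bad ≤ ε1 * q * e / 2) :
    0 ≤ P + dF + X + q * (-(c ^ 2 / 4) * (ψ * (1 - ψ)) * (1 - 2 * ψ) * (1 - w) +
      (c / 2) * (ψ * (1 - ψ)) * A + (c / 2) * (c * (1 - B * q / 2)) * (ψ * (1 - ψ)) -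
      c / (2 * y) * ψ) := by
  have hT : 0 ≤ ψ * (1 - ψ) := mul_nonneg hψ0.le (by linarith)
  have hcT : 0 ≤ c ^ 2 / 4 * (ψ * (1 - ψ)) := by positivity
  have t1 : c ^ 2 / 4 * (ψ * (1 - ψ)) * ((1 - 2 * ψ) * (1 - w)) ≤ c ^ 2 / 4 * (ψ * (1 - ψ)) * 1 := by
    apply mul_le_mul_of_nonneg_left _ hcT
    have a1 : 0 ≤ 1 - 2 * ψ := by linarith
    have a2 : 1 - 2 * ψ ≤ 1 := by linarith
    have a3 : 0 ≤ 1 - w := by linarith
    have a4 : 1 - w ≤ 1 := by linarith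
    calc (1 - 2 * ψ) * (1 - w) ≤ 1 * 1 := mul_le_mul a2 a4 a3 (by norm_num)
      _ = 1 := by ring
  have t2 : 0 ≤ (c / 2) * (ψ * (1 - ψ)) * A := by positivity
  have t3 : ψ * (c ^ 2 / 4 - c ^ 2 / 4 * ψ - c ^ 2 / 4 * (B * q)) ≤
      c ^ 2 / 4 * (ψ * (1 - ψ)) * (1 - B * q) := by
    have : c ^ 2 / 4 * (ψ * (1 - ψ)) * (1 - B * q) - ψ * (c ^ 2 / 4 - c ^ 2 / 4 * ψ - c ^ 2 / 4 * (B * q))
        = c ^ 2 / 4 * (ψ * ψ) * (B * q) := by ring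
    have h0 : 0 ≤ c ^ 2 / 4 * (ψ * ψ) * (B * q) := by positivity
    linarith
  have t4 : ψ * (k + ε1) ≤ ψ * (c ^ 2 / 4 - c ^ 2 / 4 * ψ - c ^ 2 / 4 * (B * q) - c / (2 * y)) := by
    apply mul_le_mul_of_nonneg_left _ hψ0.le
    linarith
  have t5 : ψ * (k + ε1) ≤ -(c ^ 2 / 4) * (ψ * (1 - ψ)) * (1 - 2 * ψ) * (1 - w) +
      (c / 2) * (ψ * (1 - ψ)) * A + (c / 2) * (c * (1 - B * q / 2)) * (ψ * (1 - ψ)) -
      c / (2 * y) * ψ := by
    have e1 : -(c ^ 2 / 4) * (ψ * (1 - ψ)) * (1 - 2 * ψ) * (1 - w) =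
      -(c ^ 2 / 4 * (ψ * (1 - ψ)) * ((1 - 2 * ψ) * (1 - w))) := by ring
    have e2 : (c / 2) * (c * (1 - B * q / 2)) * (ψ * (1 - ψ)) =
      c ^ 2 / 4 * (ψ * (1 - ψ)) * 1 + c ^ 2 / 4 * (ψ * (1 - ψ)) * (1 - B * q) := by ring
    rw [e1, e2]
    have e3 : ψ * (c ^ 2 / 4 - c ^ 2 / 4 * ψ - c ^ 2 / 4 * (B * q) - c / (2 * y)) =
      ψ * (c ^ 2 / 4 - c ^ 2 / 4 * ψ - c ^ 2 / 4 * (B * q)) - c / (2 * y) * ψ := by ring
    rw [e3] at t4
    linarith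
  have t6 := mul_le_mul_of_nonneg_left t5 hq.le
  have t7 : ε1 * q * e / 2 ≤ ε1 * q * ψ := by
    have : ε1 * q * e / 2 = ε1 * q * (e / 2) := by ring
    rw [this]
    exact mul_le_mul_of_nonneg_left hψe (by positivity)
  have t8 : q * (ψ * (k + ε1)) = k * (q * ψ) + ε1 * q * ψ := by ring
  linarith

theorem regionL {c μ q ψ y w A bad B dF P X : ℝ} (hc : 0 < c) (hψ0 : 1 / 2 ≤ ψ) (hψ1 : ψ < 1)
    (hq : 0 < q) (hB2 : B * q ≤ 1) (hy : c / (2 * y) ≤ μ / 2) (hμ : 0 < μ)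
    (hw1 : w ≤ 1) (hA : 0 ≤ A)
    (hF : μ * (q * ψ) ≤ dF) (hP : 0 ≤ P) (hX : -bad ≤ X) (hbad : bad ≤ μ * q / 4) :
    0 ≤ P + dF + X + q * (-(c ^ 2 / 4) * (ψ * (1 - ψ)) * (1 - 2 * ψ) * (1 - w) +
      (c / 2) * (ψ * (1 - ψ)) * A + (c / 2) * (c * (1 - B * q / 2)) * (ψ * (1 - ψ)) -
      c / (2 * y) * ψ) := by
  have hψp : 0 < ψ := by linarith
  have hT : 0 ≤ ψ * (1 - ψ) := mul_nonneg hψp.le (by linarith)
  have t1 : 0 ≤ -(c ^ 2 / 4) * (ψ * (1 - ψ)) * (1 - 2 * ψ) * (1 - w) := by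
    have : -(c ^ 2 / 4) * (ψ * (1 - ψ)) * (1 - 2 * ψ) * (1 - w) =
      c ^ 2 / 4 * (ψ * (1 - ψ)) * (2 * ψ - 1) * (1 - w) := by ring
    rw [this]
    have h1 : 0 ≤ 2 * ψ - 1 := by linarith
    have h2 : 0 ≤ 1 - w := by linarith
    positivity
  have t2 : 0 ≤ (c / 2) * (ψ * (1 - ψ)) * A := by positivity
  have t3 : 0 ≤ (c / 2) * (c * (1 - B * q / 2)) * (ψ * (1 - ψ)) := by
    have : 0 ≤ 1 - B * q / 2 := by linarith
    positivity
  have t4 : c / (2 * y) * ψ ≤ μ / 2 * ψ := mul_le_mul_of_nonneg_right hy hψp.le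
  have t5 := mul_le_mul_of_nonneg_left (show -(μ / 2 * ψ) ≤ -(c ^ 2 / 4) * (ψ * (1 - ψ)) * (1 - 2 * ψ) * (1 - w) +
      (c / 2) * (ψ * (1 - ψ)) * A + (c / 2) * (c * (1 - B * q / 2)) * (ψ * (1 - ψ)) -
      c / (2 * y) * ψ by linarith) hq.le
  have t6 : μ * q / 4 ≤ μ / 2 * (q * ψ) := by
    have : μ / 2 * (q * ψ) - μ * q / 4 = μ * q / 2 * (ψ - 1 / 2) := by ring
    have h0 : 0 ≤ μ * q / 2 * (ψ - 1 / 2) := mul_nonneg (by positivity) (by linarith)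
    linarith
  nlinarith

theorem regionM {c K q ψ y w A bad B dF P X G : ℝ} (hc : 0 < c) (hψ0 : 0 < ψ) (hψ1 : ψ < 1)
    (hq : 0 < q) (hB2 : B * q ≤ 1) (hy : 1 ≤ y) (hw0 : 0 ≤ w) (hw1 : w ≤ 1) (hA : 0 ≤ A)
    (hK : 0 < K)
    (hG : G = K + c ^ 2 / 4 + c) (hF : -(K * (q * ψ)) ≤ dF) (hP : 4 * q * G ≤ P) (hX : -bad ≤ X)
    (hbad : bad ≤ 3 * q * G) :
    0 ≤ P + dF + X + q * (-(c ^ 2 / 4) * (ψ * (1 - ψ)) * (1 - 2 * ψ) * (1 - w) +
      (c / 2) * (ψ * (1 - ψ)) * A + (c / 2) * (c * (1 - B * q / 2)) * (ψ * (1 - ψ)) -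
      c / (2 * y) * ψ) := by
  have hT : 0 ≤ ψ * (1 - ψ) := mul_nonneg hψ0.le (by linarith)
  have hT1 : ψ * (1 - ψ) ≤ 1 := by nlinarith
  have t1 : -(c ^ 2 / 4) ≤ -(c ^ 2 / 4) * (ψ * (1 - ψ)) * (1 - 2 * ψ) * (1 - w) := by
    have e : -(c ^ 2 / 4) * (ψ * (1 - ψ)) * (1 - 2 * ψ) * (1 - w) =
      -(c ^ 2 / 4 * ((ψ * (1 - ψ)) * ((1 - 2 * ψ) * (1 - w)))) := by ring
    rw [e]
    have h1 : (ψ * (1 - ψ)) * ((1 - 2 * ψ) * (1 - w)) ≤ 1 := by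
      have a1 : (1 - 2 * ψ) * (1 - w) ≤ 1 := by nlinarith
      calc (ψ * (1 - ψ)) * ((1 - 2 * ψ) * (1 - w)) ≤ (ψ * (1 - ψ)) * 1 :=
            mul_le_mul_of_nonneg_left a1 hT
        _ ≤ 1 := by linarith
    have h2 : c ^ 2 / 4 * ((ψ * (1 - ψ)) * ((1 - 2 * ψ) * (1 - w))) ≤ c ^ 2 / 4 * 1 :=
      mul_le_mul_of_nonneg_left h1 (by positivity)
    linarith
  have t2 : 0 ≤ (c / 2) * (ψ * (1 - ψ)) * A := by positivity
  have t3 : 0 ≤ (c / 2) * (c * (1 - B * q / 2)) * (ψ * (1 - ψ)) := by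
    have : 0 ≤ 1 - B * q / 2 := by linarith
    positivity
  have t4 : c / (2 * y) * ψ ≤ c := by
    have a1 : c / (2 * y) ≤ c := by
      rw [div_le_iff₀ (by linarith)]
      nlinarith
    have a2 : 0 ≤ c / (2 * y) := by positivity
    nlinarith
  have t5 := mul_le_mul_of_nonneg_left (show -(c ^ 2 / 4 + c) ≤ -(c ^ 2 / 4) * (ψ * (1 - ψ)) * (1 - 2 * ψ) * (1 - w) +
      (c / 2) * (ψ * (1 - ψ)) * A + (c / 2) * (c * (1 - B * q / 2)) * (ψ * (1 - ψ)) -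
      c / (2 * y) * ψ by linarith) hq.le
  have t6 : K * (q * ψ) ≤ K * q := by
    apply mul_le_mul_of_nonneg_left _ hK.le
    nlinarith
  have t7 : 4 * q * G - 3 * q * G = K * q + q * (c ^ 2 / 4 + c) := by rw [hG]; ring
  nlinarith

end Pool.Agent.H59.RD
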