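import Mathlib
import Pool.Agent.H82.RD.Targets
import Pool.Agent.H82.RD.Basic

/-!
# ZLN: the zero lemma, normalised form
-/

set_option autoImplicit false

open MvPolynomial

namespace Pool.Agent.H59.RD

open Pool.Agent.H82.RD

theorem ind_empty {k : Type} [Field k] {u : ℕ} (p : Ideal (PR k u)) (hp : p.IsPrime) :
    Ind p ∅ := by
  have : IsEmpty (↥(∅ : Finset (Option (Fin u)))) := ⟨fun x => absurd x.2 (Finset.notMem_empty _)⟩
  have hn : Nontrivial (PR k u ⧸ p) := Ideal.Quotient.nontrivial_iff.2 hp.ne_top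
  rw [Ind, algebraicIndependent_empty_type_iff]
  exact (algebraMap k (PR k u ⧸ p)).injective

theorem ncard_image_le_of_factor {ι α β : Type*} (S : Set ι) (hS : S.Finite) (f : ι → α)
    (g : ι → β) (h : ∀ s ∈ S, ∀ s' ∈ S, f s = f s' → g s = g s') :
    (g '' S).ncard ≤ (f '' S).ncard := by
  classical
  rcases S.eq_empty_or_nonempty with rfl | ⟨s₁, hs₁⟩
  · simp
  · let F : α → β := fun a => if h : ∃ s ∈ S, f s = a then g h.choose else g s₁
    have hF : ∀ s ∈ S, F (f s) = g s := by
      intro s hs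
      have hex : ∃ t ∈ S, f t = f s := ⟨s, hs, rfl⟩
      have h1 : F (f s) = g hex.choose := dif_pos hex
      rw [h1]
      exact h _ hex.choose_spec.1 _ hs hex.choose_spec.2
    have h2 : g '' S ⊆ F '' (f '' S) := by
      rintro _ ⟨s, hs, rfl⟩
      exact ⟨f s, ⟨s, hs, rfl⟩, hF s hs⟩
    exact (Set.ncard_le_ncard h2 ((hS.image f).image F)).trans (Set.ncard_image_le (hS.image f))

theorem pf_ZLN (hZSM : T_ZSM) (hZD0 : T_ZD0) (hZVB : T_ZVB) (hZLF : T_ZLF) (hZCT : T_ZCT)
    (hZTH : T_ZTH) (hZCH : T_ZCH) (hZSP : T_ZSP) (hZIN : T_ZIN) (hZUV : T_ZUV) (hZCO : T_ZCO)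
    (hZJI : T_ZJI) : T_ZLN := by
  classical
  intro k _ _ u A B ι S w y P s₀ hA hB hP0 hPV hs₀ hw₀ hy₀ hy hrou hvan
  obtain ⟨p, F, hp, hXp, hPp, hFV, hFS⟩ :=
    hZCH k u A B ι S w y P s₀ hP0 hPV hs₀ hw₀ hy₀ hy hvan
  set pp : ι → Ideal (PR k u) := fun s => p.comap (tr (w s) (y s)) with hpp
  set PP : Finset (Ideal (PR k u)) := S.image pp with hPP
  have hCT : ∀ K : ℕ, (∀ T : ℕ, K * T ^ dm p ≤ (dm p).factorial * hf A B p T) →
      PP.card * K ≤ (u + 1) * A ^ u * B := by
    intro K hK
    apply hZCT k u A B (dm p) K F PP hA hB hFV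
    · intro I hI
      obtain ⟨s, hs, rfl⟩ := Finset.mem_image.1 hI
      refine ⟨Ideal.comap_isPrime _ _, (hFS s hs).1, (hZTH k u A B (w s) (y s) p (hy s hs)).1, ?_⟩
      intro T
      rw [(hZTH k u A B (w s) (y s) p (hy s hs)).2 T]
      exact hK T
    · intro I hI
      obtain ⟨s, hs, rfl⟩ := Finset.mem_image.1 hI
      exact (hFS s hs).2
  by_cases hinj : Set.InjOn pp (S : Set ι)
  · left
    have hcard : PP.card = S.card := Finset.card_image_of_injOn hinj
    obtain ⟨s, _, hs2, hs3⟩ := hZVB k u p ∅ hp (ind_empty p hp)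
    have hL := hZLF k u A B p s hA hB hs2
    rw [hs3] at hL
    have h1 := hCT _ hL
    have hK : 1 ≤ (if none ∈ s then dm p * A ^ (dm p - 1) * B else A ^ dm p) := by
      split_ifs with hn
      · have h2 : 1 ≤ dm p := by
          rw [← hs3]
          exact Finset.card_pos.2 ⟨_, hn⟩
        have h3 : 1 ≤ A ^ (dm p - 1) := Nat.one_le_pow _ _ hA
        exact Nat.one_le_iff_ne_zero.2 (by positivity)
      · exact Nat.one_le_pow _ _ hA
    calc S.card = PP.card * 1 := by rw [hcard, mul_one]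
      _ ≤ PP.card * _ := Nat.mul_le_mul_left _ hK
      _ ≤ _ := h1
  · right
    have key : ∀ s ∈ S, ∀ s' ∈ S, pp s = pp s' → ∀ f ∈ p, tr (w s - w s') (y s / y s') f ∈ p := by
      intro s hs s' hs' h f hf
      obtain ⟨g, rfl⟩ := (tr_bijective (w s') (hy s' hs')).2 f
      have h1 : g ∈ pp s' := Ideal.mem_comap.2 hf
      rw [← h] at h1
      have h2 : tr (w s) (y s) g ∈ p := Ideal.mem_comap.1 h1
      rw [tr_tr, sub_add_cancel, div_mul_cancel₀ _ (hy s' hs')]
      exact h2
    have hex : ∃ s ∈ S, ∃ s' ∈ S, s ≠ s' ∧ pp s = pp s' := by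
      by_contra hcon
      apply hinj
      intro s hs s' hs' h
      by_contra hne
      exact hcon ⟨s, hs, s', hs', hne, h⟩
    obtain ⟨s₁, hs₁, s₂, hs₂, hne, heq⟩ := hex
    have hyc : ∀ f ∈ p, ∀ b : ℕ, yc b f ∈ p := by
      apply hZSP k u (w s₁ - w s₂) (y s₁ / y s₂) p (div_ne_zero (hy s₁ hs₁) (hy s₂ hs₂)) _
        (key s₁ hs₁ s₂ hs₂ heq)
      intro n hn h1
      rw [div_pow, div_eq_one_iff_eq (pow_ne_zero _ (hy s₂ hs₂))] at h1
      exact hrou s₁ hs₁ s₂ hs₂ hne n hn h1
    obtain ⟨U, hU⟩ := hZUV k u p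
    obtain ⟨J, hJc, hJ⟩ := hZCO k u U
    have hI1 : Ind p (J.map ⟨some, Option.some_injective _⟩) := by
      apply hZJI k u p J hp
      intro v
      obtain ⟨v', hv', hv2⟩ := hJ v
      exact ⟨v', hv2, (hU v').1 hv'⟩
    have hI2 := hZIN k u p J hp hXp hyc hI1
    obtain ⟨s, hs1, hs2, hs3⟩ := hZVB k u p _ hp hI2
    have hns : none ∈ s := hs1 (Finset.mem_insert_self _ _)
    have hcs : Module.finrank k U + 1 ≤ dm p := by
      rw [← hs3, ← hJc]
      calc J.card + 1 = (insert none (J.map ⟨some, Option.some_injective _⟩)).card := by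
            rw [Finset.card_insert_of_notMem (by simp), Finset.card_map]
        _ ≤ s.card := Finset.card_le_card hs1
    have hL := hZLF k u A B p s hA hB hs2
    rw [if_pos hns, hs3] at hL
    have h1 := hCT _ hL
    have hUu : Module.finrank k U ≤ u := by
      have := Submodule.finrank_le U
      rwa [Module.finrank_fin_fun] at this
    refine ⟨U, ?_, ?_⟩
    · intro htop
      have h2 : Module.finrank k U = u := by
        rw [htop, finrank_top, Module.finrank_fin_fun]
      have h3 : (⊥ : Ideal (PR k u)) < p := by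
        rw [bot_lt_iff_ne_bot]
        intro h
        rw [h] at hPp
        exact hP0 ((Submodule.mem_bot _).1 hPp)
      have h4 := hZSM k u ⊥ p Ideal.isPrime_bot hp h3
      rw [hZD0] at h4
      omega
    · have h5 : ((fun s => U.mkQ (w s)) '' (S : Set ι)).ncard ≤ PP.card := by
        have h6 : PP.card = (pp '' (S : Set ι)).ncard := by
          rw [← Finset.coe_image, Set.ncard_coe_finset]
        rw [h6]
        apply ncard_image_le_of_factor _ S.finite_toSet
        intro s hs s' hs' h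
        have h7 : w s - w s' ∈ U := by
          rw [hU]
          intro f hf
          have h8 := key s hs s' hs' h _ hf
          rwa [tr_rename] at h8
        show U.mkQ (w s) = U.mkQ (w s')
        rw [← sub_eq_zero, ← map_sub, Submodule.mkQ_apply, Submodule.Quotient.mk_eq_zero]
        exact h7
      refine h5.trans ?_
      have hA0 : 0 < A := hA
      have hB0 : 0 < B := hB
      have h9 : PP.card * A ^ (dm p - 1) ≤ (u + 1) * A ^ u := by
        have h10 : PP.card * A ^ (dm p - 1) * B ≤ (u + 1) * A ^ u * B := by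
          refine le_trans ?_ h1
          have h11 : 1 ≤ dm p := by omega
          calc PP.card * A ^ (dm p - 1) * B = 1 * (PP.card * A ^ (dm p - 1) * B) := by ring
            _ ≤ dm p * (PP.card * A ^ (dm p - 1) * B) := Nat.mul_le_mul_right _ h11
            _ = PP.card * (dm p * A ^ (dm p - 1) * B) := by ring
        exact Nat.le_of_mul_le_mul_right h10 hB0
      have h12 : PP.card * A ^ Module.finrank k U ≤ (u + 1) * A ^ u :=
        le_trans (Nat.mul_le_mul_left _ (Nat.pow_le_pow_right hA0 (by omega))) h9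
      have h13 : (u + 1) * A ^ u =
          (u + 1) * A ^ (u - Module.finrank k U) * A ^ Module.finrank k U := by
        rw [mul_assoc, ← pow_add, Nat.sub_add_cancel hUu]
      rw [h13] at h12
      exact Nat.le_of_mul_le_mul_right h12 (by positivity)

end Pool.Agent.H59.RD
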